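import Mathlib

/-! Blocking the connecting lines of a planar point set, MP_5dc6c6_co: linear algebra in three
dimensional space. -/

namespace Pool.Agent.Helper65.Blk

abbrev V : Type := ℝ × ℝ × ℝ

def dot (a x : V) : ℝ := a.1 * x.1 + a.2.1 * x.2.1 + a.2.2 * x.2.2

def crs (a b : V) : V :=
  (a.2.1 * b.2.2 - a.2.2 * b.2.1, a.2.2 * b.1 - a.1 * b.2.2, a.1 * b.2.1 - a.2.1 * b.1)

theorem dot_comm (a x : V) : dot a x = dot x a := by simp only [dot]; ring

theorem dot_add (a x y : V) : dot a (x + y) = dot a x + dot a y := by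
  simp only [dot, Prod.fst_add, Prod.snd_add]; ring

theorem add_dot (a x y : V) : dot (x + y) a = dot x a + dot y a := by
  simp only [dot, Prod.fst_add, Prod.snd_add]; ring

theorem dot_smul (t : ℝ) (a x : V) : dot a (t • x) = t * dot a x := by
  simp only [dot, Prod.smul_fst, Prod.smul_snd, smul_eq_mul]; ring

theorem smul_dot (t : ℝ) (a x : V) : dot (t • a) x = t * dot a x := by
  simp only [dot, Prod.smul_fst, Prod.smul_snd, smul_eq_mul]; ring

theorem dot_neg (a x : V) : dot a (-x) = - dot a x := by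
  simp only [dot, Prod.fst_neg, Prod.snd_neg]; ring

theorem neg_dot (a x : V) : dot (-a) x = - dot a x := by
  simp only [dot, Prod.fst_neg, Prod.snd_neg]; ring

theorem dot_zero (a : V) : dot a 0 = 0 := by simp [dot]

theorem zero_dot (a : V) : dot 0 a = 0 := by simp [dot]

theorem dot_crs_self (a b : V) : dot a (crs a b) = 0 := by simp only [dot, crs]; ring

theorem dot_crs_self' (a b : V) : dot b (crs a b) = 0 := by simp only [dot, crs]; ring

theorem dot_self_pos {a : V} (h : a ≠ 0) : 0 < dot a a := by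
  rcases a with ⟨x, y, z⟩
  simp only [dot]
  by_contra hc
  push Not at hc
  have hx : x = 0 := by nlinarith [sq_nonneg x, sq_nonneg y, sq_nonneg z]
  have hy : y = 0 := by nlinarith [sq_nonneg x, sq_nonneg y, sq_nonneg z]
  have hz : z = 0 := by nlinarith [sq_nonneg x, sq_nonneg y, sq_nonneg z]
  exact h (by simp [hx, hy, hz])

theorem crs_crs (a b x : V) : crs (crs a b) x = dot a x • b - dot b x • a := by
  refine Prod.ext ?_ (Prod.ext ?_ ?_) <;>
    simp only [crs, dot, Prod.fst_sub, Prod.snd_sub, Prod.smul_fst, Prod.smul_snd, smul_eq_mul] <;>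
    ring

theorem crs_swap (a b : V) : crs a b = - crs b a := by
  refine Prod.ext ?_ (Prod.ext ?_ ?_) <;> simp only [crs, Prod.fst_neg, Prod.snd_neg] <;> ring

theorem crs_smul (t : ℝ) (a b : V) : crs a (t • b) = t • crs a b := by
  refine Prod.ext ?_ (Prod.ext ?_ ?_) <;>
    simp only [crs, Prod.smul_fst, Prod.smul_snd, smul_eq_mul] <;> ring

theorem smul_crs (t : ℝ) (a b : V) : crs (t • a) b = t • crs a b := by
  refine Prod.ext ?_ (Prod.ext ?_ ?_) <;>
    simp only [crs, Prod.smul_fst, Prod.smul_snd, smul_eq_mul] <;> ring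

theorem crs_add (a b c : V) : crs a (b + c) = crs a b + crs a c := by
  refine Prod.ext ?_ (Prod.ext ?_ ?_) <;>
    simp only [crs, Prod.fst_add, Prod.snd_add] <;> ring

theorem crs_self (a : V) : crs a a = 0 := by
  refine Prod.ext ?_ (Prod.ext ?_ ?_) <;> simp only [crs, Prod.fst_zero, Prod.snd_zero] <;> ring

/-- Parallel vectors. -/
theorem par {a b : V} (ha : a ≠ 0) (h : crs a b = 0) : ∃ t : ℝ, b = t • a := by
  refine ⟨dot a b / dot a a, ?_⟩
  have hp := dot_self_pos ha
  have e : crs (crs a b) a = 0 := by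
    rw [h]; refine Prod.ext ?_ (Prod.ext ?_ ?_) <;> simp [crs]
  rw [crs_crs] at e
  have e2 : dot a a • b = dot b a • a := sub_eq_zero.mp e
  have e3 : b = (dot a a)⁻¹ • (dot b a • a) := by
    rw [← e2, smul_smul, inv_mul_cancel₀ (ne_of_gt hp), one_smul]
  rw [smul_smul] at e3
  rw [dot_comm a b, div_eq_inv_mul]
  exact e3

theorem ne_zero_of_crs_left {a b : V} (h : crs a b ≠ 0) : a ≠ 0 := by
  rintro rfl
  exact h (by refine Prod.ext ?_ (Prod.ext ?_ ?_) <;> simp [crs])

theorem ne_zero_of_crs_right {a b : V} (h : crs a b ≠ 0) : b ≠ 0 := by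
  rintro rfl
  exact h (by refine Prod.ext ?_ (Prod.ext ?_ ?_) <;> simp [crs])

/-- The common zeros of two nonparallel forms are the multiples of the cross product. -/
theorem ann {a b x : V} (hab : crs a b ≠ 0) (ha : dot a x = 0) (hb : dot b x = 0) :
    ∃ t : ℝ, x = t • crs a b := by
  apply par hab
  rw [crs_crs, ha, hb]; simp

/-- Two nonzero common zeros of two nonparallel forms are proportional. -/
theorem ann2 {a b x y : V} (hab : crs a b ≠ 0) (hx : x ≠ 0) (hy : y ≠ 0)
    (hax : dot a x = 0) (hbx : dot b x = 0) (hay : dot a y = 0) (hby : dot b y = 0) :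
    ∃ t : ℝ, t ≠ 0 ∧ x = t • y := by
  obtain ⟨s, hs⟩ := ann hab hax hbx
  obtain ⟨t, ht⟩ := ann hab hay hby
  have hs0 : s ≠ 0 := by rintro rfl; exact hx (by rw [hs, zero_smul])
  have ht0 : t ≠ 0 := by rintro rfl; exact hy (by rw [ht, zero_smul])
  refine ⟨s / t, div_ne_zero hs0 ht0, ?_⟩
  rw [ht, smul_smul, div_mul_cancel₀ _ ht0]; exact hs

/-- Two forms with two nonproportional common zeros are parallel. -/
theorem par_of_zeros {a b x y : V} (hxy : crs x y ≠ 0)
    (hax : dot a x = 0) (hay : dot a y = 0) (hbx : dot b x = 0) (hby : dot b y = 0) :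
    crs a b = 0 := by
  obtain ⟨s, hs⟩ := ann hxy (by rw [dot_comm]; exact hax) (by rw [dot_comm]; exact hay)
  obtain ⟨t, ht⟩ := ann hxy (by rw [dot_comm]; exact hbx) (by rw [dot_comm]; exact hby)
  rw [hs, ht, smul_crs, crs_smul, crs_self]; simp

theorem ex_orth (u v : V) : ∃ d : V, d ≠ 0 ∧ dot u d = 0 ∧ dot v d = 0 := by
  by_cases h : crs u v = 0
  · by_cases hu : u = 0
    · by_cases hv : v = 0
      · exact ⟨(1, 0, 0), by simp, by rw [hu, zero_dot], by rw [hv, zero_dot]⟩
      · -- a vector orthogonal to v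
        obtain ⟨d, hd, hd2⟩ : ∃ d : V, d ≠ 0 ∧ dot v d = 0 := by
          by_cases h1 : v.1 = 0
          · exact ⟨(1, 0, 0), by simp, by simp [dot, h1]⟩
          · refine ⟨(-v.2.1, v.1, 0), ?_, by simp only [dot]; ring⟩
            intro h0
            have := congrArg (fun w : V => w.2.1) h0
            exact h1 this
        exact ⟨d, hd, by rw [hu, zero_dot], hd2⟩
    · obtain ⟨d, hd, hd2⟩ : ∃ d : V, d ≠ 0 ∧ dot u d = 0 := by
        by_cases h1 : u.1 = 0
        · exact ⟨(1, 0, 0), by simp, by simp [dot, h1]⟩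
        · refine ⟨(-u.2.1, u.1, 0), ?_, by simp only [dot]; ring⟩
          intro h0
          have := congrArg (fun w : V => w.2.1) h0
          exact h1 this
      obtain ⟨t, ht⟩ := par hu h
      exact ⟨d, hd, hd2, by rw [ht, smul_dot, hd2, mul_zero]⟩
  · exact ⟨crs u v, h, dot_crs_self u v, dot_crs_self' u v⟩

/-- Expansion of a vector in the frame c, r, c cross r. -/
theorem expand (c r x : V) :
    dot (crs c r) (crs c r) • x = dot (crs c r) x • crs c r
      + (dot c x * dot r r - dot r x * dot c r) • c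
      + (dot r x * dot c c - dot c x * dot c r) • r := by
  refine Prod.ext ?_ (Prod.ext ?_ ?_) <;>
    simp only [crs, dot, Prod.fst_add, Prod.snd_add, Prod.smul_fst, Prod.smul_snd, smul_eq_mul] <;>
    ring

/-- b × (b × x) = (b·x) b - |b|² x. -/
theorem crs_crs_self (b x : V) : crs b (crs b x) = dot b x • b - dot b b • x := by
  refine Prod.ext ?_ (Prod.ext ?_ ?_) <;>
    simp only [crs, dot, Prod.fst_sub, Prod.snd_sub, Prod.smul_fst, Prod.smul_snd, smul_eq_mul] <;>
    ring

theorem crs_ne_of_perp {c r : V} (hc : c ≠ 0) (hr : r ≠ 0) (h : dot c r = 0) : crs c r ≠ 0 := by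
  intro h0
  obtain ⟨t, ht⟩ := par hc h0
  rw [ht, dot_smul] at h
  have hp := dot_self_pos hc
  rcases mul_eq_zero.mp h with h1 | h1
  · rw [h1, zero_smul] at ht; exact hr ht
  · exact absurd h1 (ne_of_gt hp)

end Pool.Agent.Helper65.Blk
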