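import Mathlib
import Pool.Agent.Helper65.Blk.Basic

/-! Regions of an arrangement of planes through the origin, by deletion. -/

namespace Pool.Agent.Helper65.Blk

open Finset Filter Topology

/-- Pairwise nonparallel nonzero forms. -/
def Red (A : Finset V) : Prop :=
  (∀ a ∈ A, a ≠ 0) ∧ ∀ a ∈ A, ∀ b ∈ A, a ≠ b → crs a b ≠ 0

def Op (A S : Finset V) (x : V) : Prop :=
  ∀ a ∈ A, (a ∈ S → 0 < dot a x) ∧ (a ∉ S → dot a x < 0)

def Cl (A S : Finset V) (x : V) : Prop :=
  ∀ a ∈ A, (a ∈ S → 0 ≤ dot a x) ∧ (a ∉ S → dot a x ≤ 0)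

open Classical in
noncomputable def Reg (A : Finset V) : Finset (Finset V) :=
  A.powerset.filter (fun S => ∃ x, Op A S x)

open Classical in
noncomputable def Reg1 (c : V) (A : Finset V) : Finset (Finset V) :=
  A.powerset.filter (fun S => ∃ x, dot c x = 0 ∧ Op A S x)

open Classical in
noncomputable def Zr (A : Finset V) (x : V) : Finset V := A.filter (fun a => dot a x = 0)

open Classical in
noncomputable def Lines (A : Finset V) : Finset (Finset V) :=
  A.powerset.filter (fun L => 2 ≤ L.card ∧ ∃ x, x ≠ 0 ∧ L = Zr A x)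

theorem Red.mono {A A' : Finset V} (h : Red A) (hs : A' ⊆ A) : Red A' :=
  ⟨fun a ha => h.1 a (hs ha), fun a ha b hb => h.2 a (hs ha) b (hs hb)⟩

theorem mem_Reg {A S : Finset V} : S ∈ Reg A ↔ S ⊆ A ∧ ∃ x, Op A S x := by
  classical
  simp [Reg]

theorem mem_Reg1 {c : V} {A S : Finset V} :
    S ∈ Reg1 c A ↔ S ⊆ A ∧ ∃ x, dot c x = 0 ∧ Op A S x := by
  classical
  simp [Reg1]

theorem mem_Zr {A : Finset V} {x a : V} : a ∈ Zr A x ↔ a ∈ A ∧ dot a x = 0 := by
  classical
  simp [Zr]

theorem mem_Lines {A L : Finset V} :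
    L ∈ Lines A ↔ 2 ≤ L.card ∧ ∃ x, x ≠ 0 ∧ L = Zr A x := by
  classical
  simp only [Lines, mem_filter, mem_powerset]
  constructor
  · exact fun h => h.2
  · intro h
    refine ⟨?_, h⟩
    obtain ⟨_, x, _, rfl⟩ := h
    exact fun a ha => (mem_Zr.mp ha).1

theorem Op.pert {A S : Finset V} {x : V} (h : Op A S x) (v : V) :
    ∀ᶠ t in 𝓝 (0 : ℝ), Op A S (x + t • v) := by
  unfold Op
  rw [eventually_all_finset]
  intro a ha
  have hc : Tendsto (fun t : ℝ => dot a (x + t • v)) (𝓝 0) (𝓝 (dot a x)) := by
    have : Continuous (fun t : ℝ => dot a x + t * dot a v) := by fun_prop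
    have h2 := this.tendsto 0
    simp only [zero_mul, add_zero] at h2
    refine h2.congr (fun t => ?_)
    rw [dot_add, dot_smul]
  by_cases hS : a ∈ S
  · filter_upwards [hc.eventually (lt_mem_nhds ((h a ha).1 hS))] with t ht
    exact ⟨fun _ => ht, fun h' => absurd hS h'⟩
  · filter_upwards [hc.eventually (gt_mem_nhds ((h a ha).2 hS))] with t ht
    exact ⟨fun h' => absurd h' hS, fun _ => ht⟩

theorem Op.pert_pos {A S : Finset V} {x : V} (h : Op A S x) (v : V) :
    ∃ t : ℝ, 0 < t ∧ Op A S (x + t • v) := by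
  have h1 : ∀ᶠ t in 𝓝[>] (0 : ℝ), Op A S (x + t • v) := (h.pert v).filter_mono nhdsWithin_le_nhds
  have h2 : ∀ᶠ t in 𝓝[>] (0 : ℝ), 0 < t := eventually_mem_nhdsWithin
  exact (h2.and h1).exists

theorem Op.comb {A S : Finset V} {x y : V} {s t : ℝ} (hx : Op A S x) (hy : Op A S y)
    (hs : 0 < s) (ht : 0 < t) : Op A S (s • x + t • y) := by
  intro a ha
  constructor
  · intro h
    rw [dot_add, dot_smul, dot_smul]
    have := (hx a ha).1 h
    have := (hy a ha).1 h
    positivity
  · intro h
    rw [dot_add, dot_smul, dot_smul]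
    have h1 := (hx a ha).2 h
    have h2 := (hy a ha).2 h
    nlinarith [mul_pos hs (neg_pos.mpr h1), mul_pos ht (neg_pos.mpr h2)]

/-- Deletion. -/
theorem card_Reg_insert {c : V} {A : Finset V} (hc : c ≠ 0) (hcA : c ∉ A) :
    (Reg (insert c A)).card = (Reg A).card + (Reg1 c A).card := by
  classical
  set Xp : Finset (Finset V) := A.powerset.filter (fun S => ∃ x, 0 < dot c x ∧ Op A S x) with hXp
  set Xm : Finset (Finset V) := A.powerset.filter (fun S => ∃ x, dot c x < 0 ∧ Op A S x) with hXm
  have hcc := dot_self_pos hc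
  have h1 : Reg (insert c A) = Xm ∪ Xp.image (insert c) := by
    ext S
    rw [mem_Reg, mem_union, mem_image]
    constructor
    · rintro ⟨hS, x, hx⟩
      by_cases hcS : c ∈ S
      · right
        refine ⟨S.erase c, ?_, insert_erase hcS⟩
        rw [hXp, mem_filter, mem_powerset]
        refine ⟨?_, x, (hx c (mem_insert_self c A)).1 hcS, ?_⟩
        · intro a ha
          rw [mem_erase] at ha
          exact (mem_insert.mp (hS ha.2)).resolve_left ha.1
        · intro a ha
          have hac : a ≠ c := fun h => hcA (h ▸ ha)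
          have := hx a (mem_insert_of_mem ha)
          simp only [mem_erase, ne_eq, hac, not_false_eq_true, true_and]
          exact this
      · left
        rw [hXm, mem_filter, mem_powerset]
        refine ⟨?_, x, (hx c (mem_insert_self c A)).2 hcS, ?_⟩
        · intro a ha
          exact (mem_insert.mp (hS ha)).resolve_left (fun h => hcS (h ▸ ha))
        · intro a ha
          exact hx a (mem_insert_of_mem ha)
    · rintro (h | ⟨T, hT, rfl⟩)
      · rw [hXm, mem_filter, mem_powerset] at h
        obtain ⟨hS, x, hx, hop⟩ := h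
        refine ⟨hS.trans (subset_insert c A), x, ?_⟩
        intro a ha
        rcases mem_insert.mp ha with rfl | ha
        · exact ⟨fun h => absurd (hS h) hcA, fun _ => hx⟩
        · exact hop a ha
      · rw [hXp, mem_filter, mem_powerset] at hT
        obtain ⟨hS, x, hx, hop⟩ := hT
        refine ⟨insert_subset_insert c hS, x, ?_⟩
        intro a ha
        rcases mem_insert.mp ha with rfl | ha
        · exact ⟨fun _ => hx, fun h => absurd (mem_insert_self _ _) h⟩
        · have hac : a ≠ c := fun h => hcA (h ▸ ha)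
          have := hop a ha
          simp only [mem_insert, hac, false_or]
          exact this
  have hdisj : Disjoint Xm (Xp.image (insert c)) := by
    rw [Finset.disjoint_left]
    intro S hS hS2
    rw [hXm, mem_filter, mem_powerset] at hS
    obtain ⟨T, _, rfl⟩ := mem_image.mp hS2
    exact hcA (hS.1 (mem_insert_self c T))
  have hinj : Set.InjOn (insert c) (Xp : Set (Finset V)) := by
    intro S hS T hT hST
    have hS' : c ∉ S := by
      have := mem_coe.mp hS
      rw [hXp, mem_filter, mem_powerset] at this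
      exact fun h => hcA (this.1 h)
    have hT' : c ∉ T := by
      have := mem_coe.mp hT
      rw [hXp, mem_filter, mem_powerset] at this
      exact fun h => hcA (this.1 h)
    have := congrArg (fun W : Finset V => W.erase c) hST
    simpa [erase_insert hS', erase_insert hT'] using this
  have hun : Xp ∪ Xm = Reg A := by
    ext S
    rw [mem_union, mem_Reg, hXp, hXm, mem_filter, mem_filter, mem_powerset]
    constructor
    · rintro (⟨hS, x, _, hx⟩ | ⟨hS, x, _, hx⟩) <;> exact ⟨hS, x, hx⟩
    · rintro ⟨hS, x, hx⟩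
      rcases lt_trichotomy (dot c x) 0 with h | h | h
      · exact Or.inr ⟨hS, x, h, hx⟩
      · left
        obtain ⟨t, ht, hop⟩ := hx.pert_pos c
        refine ⟨hS, _, ?_, hop⟩
        rw [dot_add, dot_smul, h]
        positivity
      · exact Or.inl ⟨hS, x, h, hx⟩
  have hint : Xp ∩ Xm = Reg1 c A := by
    ext S
    rw [mem_inter, mem_Reg1, hXp, hXm, mem_filter, mem_filter, mem_powerset]
    constructor
    · rintro ⟨⟨hS, x, hcx, hx⟩, ⟨_, y, hcy, hy⟩⟩
      refine ⟨hS, _, ?_, hx.comb hy (neg_pos.mpr hcy) hcx⟩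
      rw [dot_add, dot_smul, dot_smul]; ring
    · rintro ⟨hS, x, hcx, hx⟩
      obtain ⟨t, ht, hop⟩ := hx.pert_pos c
      obtain ⟨s, hs, hop2⟩ := hx.pert_pos (-c)
      refine ⟨⟨hS, _, ?_, hop⟩, ⟨hS, _, ?_, hop2⟩⟩
      · rw [dot_add, dot_smul, hcx]; positivity
      · rw [dot_add, dot_smul, hcx, dot_neg]
        nlinarith [mul_pos hs hcc]
  rw [h1, card_union_of_disjoint hdisj, card_image_of_injOn hinj, ← hun, ← hint,
    card_union_add_card_inter, add_comm]

theorem Zr_eq_of_two {A : Finset V} {a b x y : V} (hab : crs a b ≠ 0) (hx : x ≠ 0) (hy : y ≠ 0)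
    (hax : dot a x = 0) (hbx : dot b x = 0) (hay : dot a y = 0) (hby : dot b y = 0) :
    Zr A x = Zr A y := by
  obtain ⟨t, ht, hxy⟩ := ann2 hab hx hy hax hbx hay hby
  ext q
  rw [mem_Zr, mem_Zr, hxy, dot_smul]
  simp [ht]

def sg : Bool → ℝ := fun b => if b then 1 else -1

theorem sg_ne (b : Bool) : sg b ≠ 0 := by cases b <;> simp [sg]

theorem sg_mul_self (b : Bool) : sg b * sg b = 1 := by cases b <;> simp [sg]

open Classical in
/-- The region of the trace on the plane of c just after the direction r. -/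
noncomputable def Sr (c : V) (A : Finset V) (r : V) : Finset V :=
  A.filter (fun q => 0 < dot q r ∨ (dot q r = 0 ∧ 0 < dot q (crs c r)))

theorem mem_Sr {c : V} {A : Finset V} {r q : V} :
    q ∈ Sr c A r ↔ q ∈ A ∧ (0 < dot q r ∨ (dot q r = 0 ∧ 0 < dot q (crs c r))) := by
  classical
  simp [Sr]

theorem rot_ne {c : V} {A : Finset V} (hR : Red (insert c A)) (hcA : c ∉ A) {r : V} (hr : r ≠ 0)
    (hcr : dot c r = 0) {q : V} (hq : q ∈ A) (hqr : dot q r = 0) : dot q (crs c r) ≠ 0 := by
  intro h0
  have hc : c ≠ 0 := hR.1 c (mem_insert_self c A)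
  have hcrs := crs_ne_of_perp hc hr hcr
  have hne : crs q c ≠ 0 :=
    hR.2 q (mem_insert_of_mem hq) c (mem_insert_self c A) (fun h => hcA (h ▸ hq))
  apply hne
  refine par_of_zeros (x := r) (y := crs c r) ?_ hqr h0 hcr (dot_crs_self c r)
  exact crs_ne_of_perp hr hcrs (dot_crs_self' c r)

theorem Sr_mem {c : V} {A : Finset V} (hR : Red (insert c A)) (hcA : c ∉ A) {r : V} (hr : r ≠ 0)
    (hcr : dot c r = 0) : Sr c A r ∈ Reg1 c A := by
  rw [mem_Reg1]
  refine ⟨fun q hq => (mem_Sr.mp hq).1, ?_⟩
  have hall : ∀ᶠ t in 𝓝[>] (0 : ℝ), Op A (Sr c A r) (r + t • crs c r) := by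
    unfold Op
    rw [eventually_all_finset]
    intro q hq
    have hcont : Tendsto (fun t : ℝ => dot q (r + t • crs c r)) (𝓝[>] 0) (𝓝 (dot q r)) := by
      have : Continuous (fun t : ℝ => dot q r + t * dot q (crs c r)) := by fun_prop
      have h2 := this.tendsto 0
      simp only [zero_mul, add_zero] at h2
      refine (h2.mono_left nhdsWithin_le_nhds).congr (fun t => ?_)
      rw [dot_add, dot_smul]
    rcases lt_trichotomy (dot q r) 0 with h | h | h
    · have hqF : q ∉ Sr c A r := by
        intro hm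
        rcases (mem_Sr.mp hm).2 with h' | h'
        · exact absurd h' (not_lt.mpr h.le)
        · exact absurd h'.1 h.ne
      filter_upwards [hcont.eventually (gt_mem_nhds h)] with t ht
      exact ⟨fun h' => absurd h' hqF, fun _ => ht⟩
    · have hne := rot_ne hR hcA hr hcr hq h
      by_cases hpos : 0 < dot q (crs c r)
      · have hqF : q ∈ Sr c A r := mem_Sr.mpr ⟨hq, Or.inr ⟨h, hpos⟩⟩
        filter_upwards [eventually_mem_nhdsWithin] with t ht
        have ht' : 0 < t := ht
        refine ⟨fun _ => ?_, fun h' => absurd hqF h'⟩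
        rw [dot_add, dot_smul, h]; positivity
      · have hlt : dot q (crs c r) < 0 := lt_of_le_of_ne (not_lt.mp hpos) hne
        have hqF : q ∉ Sr c A r := by
          intro hm
          rcases (mem_Sr.mp hm).2 with h' | h'
          · exact absurd h (ne_of_gt h')
          · exact hpos h'.2
        filter_upwards [eventually_mem_nhdsWithin] with t ht
        have ht' : 0 < t := ht
        refine ⟨fun h' => absurd h' hqF, fun _ => ?_⟩
        rw [dot_add, dot_smul, h]
        nlinarith [mul_pos ht' (neg_pos.mpr hlt)]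
    · have hqF : q ∈ Sr c A r := mem_Sr.mpr ⟨hq, Or.inl h⟩
      filter_upwards [hcont.eventually (lt_mem_nhds h)] with t ht
      exact ⟨fun _ => ht, fun h' => absurd hqF h'⟩
  obtain ⟨t, ht⟩ := hall.exists
  refine ⟨_, ?_, ht⟩
  rw [dot_add, dot_smul, hcr, dot_crs_self]; ring

theorem Sr_side {c : V} {A : Finset V} (hR : Red (insert c A)) (hcA : c ∉ A) {r r' : V}
    (hcr : dot c r = 0) (hr' : r' ≠ 0) (hcr' : dot c r' = 0)
    {q : V} (hq : q ∈ A) (hqr' : dot q r' = 0) (hF : Sr c A r = Sr c A r') :
    0 ≤ dot (crs c r') r := by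
  by_contra hneg
  push Not at hneg
  have hc : c ≠ 0 := hR.1 c (mem_insert_self c A)
  have hex := congrArg (dot q) (expand c r' r)
  rw [dot_smul, dot_add, dot_add, dot_smul, dot_smul, dot_smul, hcr, hcr', hqr'] at hex
  have hcrs := crs_ne_of_perp hc hr' hcr'
  have hpp := dot_self_pos hcrs
  have hne := rot_ne hR hcA hr' hcr' hq hqr'
  have hex2 : dot (crs c r') (crs c r') * dot q r = dot (crs c r') r * dot q (crs c r') := by
    rw [hex]; ring
  rcases lt_or_gt_of_ne hne with h | h
  · -- q (J r') < 0, so q r > 0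
    have hqr : 0 < dot q r := by
      by_contra hc'
      push Not at hc'
      nlinarith [mul_pos (neg_pos.mpr hneg) (neg_pos.mpr h), mul_nonneg hpp.le (neg_nonneg.mpr hc')]
    have h1 : q ∈ Sr c A r := mem_Sr.mpr ⟨hq, Or.inl hqr⟩
    rw [hF] at h1
    rcases (mem_Sr.mp h1).2 with h2 | h2
    · exact absurd hqr' (ne_of_gt h2)
    · exact absurd h2.2 (not_lt.mpr h.le)
  · have hqr : dot q r < 0 := by
      by_contra hc'
      push Not at hc'
      nlinarith [mul_pos (neg_pos.mpr hneg) h, mul_nonneg hpp.le hc']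
    have h1 : q ∈ Sr c A r' := mem_Sr.mpr ⟨hq, Or.inr ⟨hqr', h⟩⟩
    rw [← hF] at h1
    rcases (mem_Sr.mp h1).2 with h2 | h2
    · exact absurd h2 (not_lt.mpr hqr.le)
    · exact absurd h2.1 hqr.ne

theorem Sr_inj {c : V} {A : Finset V} (hR : Red (insert c A)) (hcA : c ∉ A) {r r' : V}
    (hr : r ≠ 0) (hcr : dot c r = 0) (hr' : r' ≠ 0) (hcr' : dot c r' = 0)
    {q q' : V} (hq : q ∈ A) (hqr : dot q r = 0) (hq' : q' ∈ A) (hqr' : dot q' r' = 0)
    (hF : Sr c A r = Sr c A r') : ∃ t : ℝ, 0 < t ∧ r = t • r' := by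
  have hc : c ≠ 0 := hR.1 c (mem_insert_self c A)
  have h1 := Sr_side hR hcA hcr hr' hcr' hq' hqr' hF
  have h2 := Sr_side hR hcA hcr' hr hcr hq hqr hF.symm
  have h3 : dot (crs c r) r' = - dot (crs c r') r := by simp only [dot, crs]; ring
  have h4 : dot (crs c r') r = 0 := by linarith
  have hcrs := crs_ne_of_perp hc hr' hcr'
  have hpp := dot_self_pos hcrs
  -- r is parallel to r'
  have hpar : ∃ t : ℝ, r = t • r' := by
    have hex := expand c r' r
    rw [h4, hcr, hcr'] at hex
    refine ⟨(dot (crs c r') (crs c r'))⁻¹ * (dot r' r * dot c c), ?_⟩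
    have hex2 : dot (crs c r') (crs c r') • r = (dot r' r * dot c c) • r' := by
      rw [hex]; simp
    rw [mul_smul, ← hex2, smul_smul, inv_mul_cancel₀ (ne_of_gt hpp), one_smul]
  obtain ⟨t, ht⟩ := hpar
  refine ⟨t, ?_, ht⟩
  by_contra hneg
  push Not at hneg
  have ht0 : t < 0 := lt_of_le_of_ne hneg (by rintro rfl; exact hr (by rw [ht, zero_smul]))
  have hne := rot_ne hR hcA hr' hcr' hq' hqr'
  have hqr2 : dot q' r = 0 := by rw [ht, dot_smul, hqr', mul_zero]
  have hJ : dot q' (crs c r) = t * dot q' (crs c r') := by rw [ht, crs_smul, dot_smul]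
  rcases lt_or_gt_of_ne hne with h | h
  · have h1 : q' ∈ Sr c A r := mem_Sr.mpr ⟨hq', Or.inr ⟨hqr2, by rw [hJ]; nlinarith⟩⟩
    rw [hF] at h1
    rcases (mem_Sr.mp h1).2 with h2 | h2
    · exact absurd hqr' (ne_of_gt h2)
    · exact absurd h2.2 (not_lt.mpr h.le)
  · have h1 : q' ∈ Sr c A r' := mem_Sr.mpr ⟨hq', Or.inr ⟨hqr', h⟩⟩
    rw [← hF] at h1
    rcases (mem_Sr.mp h1).2 with h2 | h2
    · exact absurd hqr2 (ne_of_gt h2)
    · have := h2.2
      rw [hJ] at this
      nlinarith [mul_pos (neg_pos.mpr ht0) h]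

theorem sg_eq_of {b b' : Bool} {t : ℝ} (ht : 0 < t) (h : sg b = t * sg b') : b = b' := by
  cases b <;> cases b' <;> simp [sg] at h ⊢ <;> linarith

open Classical in
/-- A chosen common zero of the forms of the line. -/
noncomputable def vx (A L : Finset V) : V :=
  if h : ∃ x, x ≠ 0 ∧ L = Zr A x then h.choose else 0

theorem vx_spec {A L : Finset V} (hL : L ∈ Lines A) : vx A L ≠ 0 ∧ L = Zr A (vx A L) := by
  have h := (mem_Lines.mp hL).2
  unfold vx
  rw [dif_pos h]
  exact h.choose_spec

/-- The signed vertices. -/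
noncomputable def SV (A : Finset V) : Finset (Finset V × Bool) := Lines A ×ˢ univ

noncomputable def sv (A : Finset V) (p : Finset V × Bool) : V := sg p.2 • vx A p.1

theorem mem_SV {A : Finset V} {p : Finset V × Bool} : p ∈ SV A ↔ p.1 ∈ Lines A := by
  simp [SV]

theorem sv_ne {A : Finset V} {p : Finset V × Bool} (hp : p ∈ SV A) : sv A p ≠ 0 :=
  smul_ne_zero (sg_ne _) (vx_spec (mem_SV.mp hp)).1

theorem Zr_smul {A : Finset V} {x : V} {t : ℝ} (ht : t ≠ 0) : Zr A (t • x) = Zr A x := by
  ext a
  rw [mem_Zr, mem_Zr, dot_smul]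
  simp [ht]

theorem Zr_sv {A : Finset V} {p : Finset V × Bool} (hp : p ∈ SV A) : Zr A (sv A p) = p.1 := by
  unfold sv
  rw [Zr_smul (sg_ne _)]
  exact (vx_spec (mem_SV.mp hp)).2.symm

theorem sv_inj {A : Finset V} {p p' : Finset V × Bool} (hp : p ∈ SV A) (hp' : p' ∈ SV A) {t : ℝ}
    (ht : 0 < t) (h : sv A p = t • sv A p') : p = p' := by
  have h1 : p.1 = p'.1 := by
    rw [← Zr_sv hp, ← Zr_sv hp', h, Zr_smul ht.ne']
  refine Prod.ext h1 (sg_eq_of ht ?_)
  unfold sv at h
  rw [← h1, smul_smul] at h
  exact smul_left_injective ℝ (vx_spec (mem_SV.mp hp)).1 h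

theorem sv_of {A : Finset V} (hR : Red A) {x : V} (hx : x ≠ 0) (h2 : 2 ≤ (Zr A x).card) :
    ∃ e : Bool, (Zr A x, e) ∈ SV A ∧ ∃ t : ℝ, 0 < t ∧ sv A (Zr A x, e) = t • x := by
  have hL : Zr A x ∈ Lines A := mem_Lines.mpr ⟨h2, x, hx, rfl⟩
  obtain ⟨hv, hZ⟩ := vx_spec hL
  obtain ⟨a, ha, b, hb, hab⟩ := one_lt_card.mp (lt_of_lt_of_le one_lt_two h2)
  have ha1 := mem_Zr.mp ha
  have hb1 := mem_Zr.mp hb
  have ha2 := ha
  have hb2 := hb
  rw [hZ, mem_Zr] at ha2 hb2
  obtain ⟨t, ht, hxt⟩ := ann2 (hR.2 a ha1.1 b hb1.1 hab) hv hx ha2.2 hb2.2 ha1.2 hb1.2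
  rcases lt_or_gt_of_ne ht with h | h
  · refine ⟨false, mem_SV.mpr hL, -t, by linarith, ?_⟩
    unfold sv
    simp only [sg]
    rw [hxt, smul_smul]; simp
  · refine ⟨true, mem_SV.mpr hL, t, h, ?_⟩
    unfold sv
    simp only [sg]
    rw [hxt, smul_smul]; simp

/-- The trace on the plane of c: at least two regions per line through c. -/
theorem two_mul_lines_le {c : V} {A : Finset V} (hR : Red (insert c A)) (hcA : c ∉ A) :
    2 * ((Lines (insert c A)).filter (fun L => c ∈ L)).card ≤ (Reg1 c A).card := by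
  classical
  -- properties of the signed vectors
  have key : ∀ p ∈ ((Lines (insert c A)).filter (fun L => c ∈ L)) ×ˢ (univ : Finset Bool),
      (p ∈ SV (insert c A) ∧ sv (insert c A) p ≠ 0 ∧ dot c (sv (insert c A) p) = 0 ∧
        ∃ q ∈ A, dot q (sv (insert c A) p) = 0) := by
    intro p hp
    rw [mem_product, mem_filter] at hp
    obtain ⟨⟨hL, hcL⟩, _⟩ := hp
    have hSV : p ∈ SV (insert c A) := mem_SV.mpr hL
    refine ⟨hSV, sv_ne hSV, ?_, ?_⟩
    · rw [← Zr_sv hSV, mem_Zr] at hcL
      exact hcL.2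
    · obtain ⟨q, hq, hqc⟩ : ∃ q ∈ p.1, q ≠ c :=
        exists_mem_ne (by have := (mem_Lines.mp hL).1; omega) c
      rw [← Zr_sv hSV, mem_Zr, mem_insert] at hq
      exact ⟨q, hq.1.resolve_left hqc, hq.2⟩
  have hcard : (((Lines (insert c A)).filter (fun L => c ∈ L)) ×ˢ (univ : Finset Bool)).card
      ≤ (Reg1 c A).card := by
    apply card_le_card_of_injOn (fun p => Sr c A (sv (insert c A) p))
    · intro p hp
      obtain ⟨_, h0, hc0, _⟩ := key p (mem_coe.mp hp)
      exact Sr_mem hR hcA h0 hc0
    · intro p hp p' hp' hF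
      obtain ⟨hS, h0, hc0, q, hq, hq0⟩ := key p (mem_coe.mp hp)
      obtain ⟨hS', h0', hc0', q', hq', hq0'⟩ := key p' (mem_coe.mp hp')
      obtain ⟨t, ht, htt⟩ := Sr_inj hR hcA h0 hc0 h0' hc0' hq hq0 hq' hq0' hF
      exact sv_inj hS hS' ht htt
  rw [card_product, card_univ, Fintype.card_bool, mul_comm] at hcard
  exact hcard

/-- The sum of the multiplicities minus one. -/
noncomputable def Phi (A : Finset V) : ℕ := ∑ L ∈ Lines A, (L.card - 1)

theorem Phi_insert_le {c : V} {A : Finset V} (hR : Red (insert c A)) (hcA : c ∉ A) :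
    Phi (insert c A) ≤ Phi A + ((Lines (insert c A)).filter (fun L => c ∈ L)).card := by
  classical
  set T := (Lines (insert c A)).filter (fun L => 2 ≤ (L.erase c).card) with hT
  have h1 : Phi (insert c A) ≤ ∑ L ∈ Lines (insert c A), ((L.erase c).card - 1)
      + ((Lines (insert c A)).filter (fun L => c ∈ L)).card := by
    unfold Phi
    rw [card_filter, ← sum_add_distrib]
    apply sum_le_sum
    intro L hL
    by_cases hc : c ∈ L
    · rw [if_pos hc, card_erase_of_mem hc]
      have := (mem_Lines.mp hL).1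
      omega
    · rw [if_neg hc, erase_eq_of_notMem hc]; omega
  have h2 : ∑ L ∈ Lines (insert c A), ((L.erase c).card - 1) = ∑ L ∈ T, ((L.erase c).card - 1) := by
    rw [hT, sum_filter]
    apply sum_congr rfl
    intro L _
    by_cases h : 2 ≤ (L.erase c).card
    · rw [if_pos h]
    · rw [if_neg h]; omega
  have hinj : Set.InjOn (fun L : Finset V => L.erase c) (T : Set (Finset V)) := by
    intro L hL L' hL' he
    have he : L.erase c = L'.erase c := he
    have hL := mem_filter.mp (mem_coe.mp hL)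
    have hL' := mem_filter.mp (mem_coe.mp hL')
    obtain ⟨_, x, hx, hLx⟩ := mem_Lines.mp hL.1
    obtain ⟨_, x', hx', hLx'⟩ := mem_Lines.mp hL'.1
    obtain ⟨a, ha, b, hb, hab⟩ := one_lt_card.mp (lt_of_lt_of_le one_lt_two hL.2)
    have ha' := ha
    have hb' := hb
    rw [he] at ha' hb'
    have ha := mem_of_mem_erase ha
    have hb := mem_of_mem_erase hb
    have ha' := mem_of_mem_erase ha'
    have hb' := mem_of_mem_erase hb'
    rw [hLx, mem_Zr] at ha hb
    rw [hLx', mem_Zr] at ha' hb'
    rw [hLx, hLx']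
    exact Zr_eq_of_two (hR.2 a ha.1 b hb.1 hab) hx hx' ha.2 hb.2 ha'.2 hb'.2
  have h3 : ∑ L ∈ T, ((L.erase c).card - 1) = ∑ M ∈ T.image (fun L => L.erase c), (M.card - 1) := by
    rw [sum_image hinj]
  have h4 : T.image (fun L => L.erase c) ⊆ Lines A := by
    intro M hM
    obtain ⟨L, hL, rfl⟩ := mem_image.mp hM
    have hL := mem_filter.mp hL
    obtain ⟨_, x, hx, hLx⟩ := mem_Lines.mp hL.1
    rw [mem_Lines]
    refine ⟨hL.2, x, hx, ?_⟩
    ext a
    rw [mem_erase, hLx, mem_Zr, mem_Zr, mem_insert]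
    constructor
    · rintro ⟨h1, h2, h3⟩
      exact ⟨h2.resolve_left h1, h3⟩
    · rintro ⟨h1, h2⟩
      exact ⟨fun h => hcA (h ▸ h1), Or.inr h1, h2⟩
  have h5 : ∑ M ∈ T.image (fun L => L.erase c), (M.card - 1) ≤ Phi A := by
    unfold Phi
    exact sum_le_sum_of_subset h4
  omega

theorem Reg_empty_card : (Reg (∅ : Finset V)).card = 1 := by
  classical
  have : Reg (∅ : Finset V) = {∅} := by
    ext S
    rw [mem_Reg, mem_singleton, subset_empty]
    constructor
    · exact fun h => h.1
    · exact fun h => ⟨h, 0, fun a ha => absurd ha (notMem_empty a)⟩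
  rw [this, card_singleton]

theorem Reg1_empty_card (c : V) : (Reg1 c (∅ : Finset V)).card = 1 := by
  classical
  have : Reg1 c (∅ : Finset V) = {∅} := by
    ext S
    rw [mem_Reg1, mem_singleton, subset_empty]
    constructor
    · exact fun h => h.1
    · exact fun h => ⟨h, 0, dot_zero c, fun a ha => absurd ha (notMem_empty a)⟩
  rw [this, card_singleton]

theorem Lines_subset {A L : Finset V} (hL : L ∈ Lines A) : L ⊆ A := by
  obtain ⟨_, x, _, rfl⟩ := mem_Lines.mp hL
  exact fun a ha => (mem_Zr.mp ha).1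

/-- Lower bound for the number of regions. -/
theorem Reg_lower {A : Finset V} (hR : Red A) (hne : A.Nonempty) :
    2 + 2 * Phi A ≤ (Reg A).card := by
  classical
  induction A using Finset.induction_on with
  | empty => exact absurd hne not_nonempty_empty
  | insert c A hcA ih =>
    have hc := hR.1 c (mem_insert_self c A)
    rw [card_Reg_insert hc hcA]
    rcases A.eq_empty_or_nonempty with rfl | hA
    · rw [Reg_empty_card, Reg1_empty_card]
      have : Phi (insert c (∅ : Finset V)) = 0 := by
        unfold Phi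
        apply sum_eq_zero
        intro L hL
        have h1 := card_le_card (Lines_subset hL)
        simp at h1
        omega
      rw [this]
    · have h1 := ih (hR.mono (subset_insert c A)) hA
      have h2 := Phi_insert_le hR hcA
      have h3 := two_mul_lines_le hR hcA
      omega

/-- Upper bound for the number of regions of forms with a common zero. -/
theorem Reg_upper {L : Finset V} (hR : Red L) (hne : L.Nonempty) {x : V} (hx : x ≠ 0)
    (hL : ∀ a ∈ L, dot a x = 0) : (Reg L).card ≤ 2 * L.card := by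
  classical
  induction L using Finset.induction_on with
  | empty => exact absurd hne not_nonempty_empty
  | insert c A hcA ih =>
    have hc := hR.1 c (mem_insert_self c A)
    rw [card_Reg_insert hc hcA, card_insert_of_notMem hcA]
    rcases A.eq_empty_or_nonempty with rfl | hA
    · rw [Reg_empty_card, Reg1_empty_card]; simp
    · have h1 := ih (hR.mono (subset_insert c A)) hA (fun a ha => hL a (mem_insert_of_mem ha))
      have hcx := hL c (mem_insert_self c A)
      have h2 : Reg1 c A ⊆ {A.filter (fun q => 0 < dot q (crs c x)),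
          A.filter (fun q => dot q (crs c x) < 0)} := by
        intro S hS
        obtain ⟨hSA, y, hcy, hy⟩ := mem_Reg1.mp hS
        have hcrs := crs_ne_of_perp hc hx hcx
        have hpp := dot_self_pos hcrs
        have hex : ∀ q ∈ A, dot (crs c x) (crs c x) * dot q y
            = dot (crs c x) y * dot q (crs c x) := by
          intro q hq
          have hex := congrArg (dot q) (expand c x y)
          rw [dot_smul, dot_add, dot_add, dot_smul, dot_smul, dot_smul, hcy, hcx,
            hL q (mem_insert_of_mem hq)] at hex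
          rw [hex]; ring
        rw [mem_insert, mem_singleton]
        rcases lt_trichotomy (dot (crs c x) y) 0 with h | h | h
        · right
          ext q
          rw [mem_filter]
          constructor
          · intro hq
            refine ⟨hSA hq, ?_⟩
            have e := hex q (hSA hq)
            have hp := (hy q (hSA hq)).1 hq
            by_contra hc'
            push Not at hc'
            nlinarith [mul_pos hpp hp, mul_nonneg (neg_nonneg.mpr h.le) hc']
          · rintro ⟨hq, hq2⟩
            by_contra hc'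
            have e := hex q hq
            have hp := (hy q hq).2 hc'
            nlinarith [mul_pos hpp (neg_pos.mpr hp), mul_pos (neg_pos.mpr h) (neg_pos.mpr hq2)]
        · exfalso
          obtain ⟨q, hq⟩ := hA
          have e := hex q hq
          rw [h, zero_mul] at e
          have h0 : dot q y = 0 := (mul_eq_zero.mp e).resolve_left hpp.ne'
          by_cases hqS : q ∈ S
          · exact absurd h0 ((hy q hq).1 hqS).ne'
          · exact absurd h0 ((hy q hq).2 hqS).ne
        · left
          ext q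
          rw [mem_filter]
          constructor
          · intro hq
            refine ⟨hSA hq, ?_⟩
            have e := hex q (hSA hq)
            have hp := (hy q (hSA hq)).1 hq
            by_contra hc'
            push Not at hc'
            nlinarith [mul_pos hpp hp, mul_nonneg h.le (neg_nonneg.mpr hc')]
          · rintro ⟨hq, hq2⟩
            by_contra hc'
            have e := hex q hq
            have hp := (hy q hq).2 hc'
            nlinarith [mul_pos hpp (neg_pos.mpr hp), mul_pos h hq2]
      have h3 := card_le_card h2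
      have h4 := card_le_two (a := A.filter (fun q => 0 < dot q (crs c x)))
        (b := A.filter (fun q => dot q (crs c x) < 0))
      omega

end Pool.Agent.Helper65.Blk
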