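import Mathlib
import Pool.Agent.Helper65.Blk.Reg

/-! Closed regions are spanned by their vertices. -/

namespace Pool.Agent.Helper65.Blk

open Finset Filter Topology

/-- The forms have no common zero. -/
def Spans (A : Finset V) : Prop := ∀ x, (∀ a ∈ A, dot a x = 0) → x = 0

open Classical in
/-- The signed vertices of a region. -/
noncomputable def adj (A S : Finset V) : Finset (Finset V × Bool) :=
  (SV A).filter (fun p => Cl A S (sv A p))

theorem mem_adj {A S : Finset V} {p : Finset V × Bool} :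
    p ∈ adj A S ↔ p ∈ SV A ∧ Cl A S (sv A p) := by
  classical
  simp [adj]

theorem Cl.smul {A S : Finset V} {x : V} (h : Cl A S x) {t : ℝ} (ht : 0 ≤ t) :
    Cl A S (t • x) := by
  intro a ha
  rw [dot_smul]
  refine ⟨fun hS => mul_nonneg ht ((h a ha).1 hS), fun hS => ?_⟩
  have := (h a ha).2 hS
  nlinarith

theorem Op.cl {A S : Finset V} {x : V} (h : Op A S x) : Cl A S x :=
  fun a ha => ⟨fun hS => ((h a ha).1 hS).le, fun hS => ((h a ha).2 hS).le⟩

/-- A step of the descent: from a point with few vanishing forms to one with more. -/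
theorem step {A S : Finset V} (hsp : Spans A) {h x : V} (hx : Cl A S x)
    (hpos : 0 < dot h x) (hZ : (Zr A x).card ≤ 1) :
    ∃ x', Cl A S x' ∧ 0 < dot h x' ∧ (Zr A x).card < (Zr A x').card := by
  classical
  -- a direction
  obtain ⟨d, hd, hdh, hdZ⟩ : ∃ d : V, d ≠ 0 ∧ dot h d = 0 ∧ ∀ a ∈ Zr A x, dot a d = 0 := by
    obtain ⟨a0, ha0⟩ : ∃ a0, Zr A x ⊆ {a0} := by
      have := card_le_one_iff_subset_singleton.mp hZ
      exact this
    obtain ⟨d, hd, h1, h2⟩ := ex_orth h a0
    refine ⟨d, hd, h1, fun a ha => ?_⟩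
    rw [mem_singleton.mp (ha0 ha)]; exact h2
  -- a form with nonzero value at d
  obtain ⟨a1, ha1, hd1⟩ : ∃ a ∈ A, dot a d ≠ 0 := by
    by_contra hcon
    push Not at hcon
    exact hd (hsp d hcon)
  have hx1 : dot a1 x ≠ 0 := fun h0 => hd1 (hdZ a1 (mem_Zr.mpr ⟨ha1, h0⟩))
  -- choose the sign of the direction
  obtain ⟨e, he0, heh, heZ, he1⟩ : ∃ e : V, e ≠ 0 ∧ dot h e = 0 ∧
      (∀ a ∈ Zr A x, dot a e = 0) ∧ dot a1 x * dot a1 e < 0 := by
    rcases lt_or_gt_of_ne (mul_ne_zero hx1 hd1) with hlt | hgt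
    · exact ⟨d, hd, hdh, hdZ, hlt⟩
    · refine ⟨-d, neg_ne_zero.mpr hd, by rw [dot_neg, hdh, neg_zero], fun a ha => by
        rw [dot_neg, hdZ a ha, neg_zero], ?_⟩
      rw [dot_neg]; linarith
  -- the first hitting time
  set N := A.filter (fun a => dot a x * dot a e < 0) with hN
  have hNne : N.Nonempty := ⟨a1, mem_filter.mpr ⟨ha1, he1⟩⟩
  obtain ⟨a2, ha2, hmin⟩ := exists_min_image N (fun a => -(dot a x) / dot a e) hNne
  have ha2' := mem_filter.mp ha2
  have he2 : dot a2 e ≠ 0 := by
    intro h0; rw [h0, mul_zero] at ha2'; exact absurd ha2'.2 (lt_irrefl 0)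
  have hx2 : dot a2 x ≠ 0 := by
    intro h0; rw [h0, zero_mul] at ha2'; exact absurd ha2'.2 (lt_irrefl 0)
  set t := -(dot a2 x) / dot a2 e with ht
  have htpos : 0 < t := by
    rw [ht]
    rw [div_eq_mul_inv]
    have h1 := ha2'.2
    have h2 : 0 < dot a2 e * dot a2 e := mul_self_pos.mpr he2
    have : -(dot a2 x) * (dot a2 e)⁻¹ = -(dot a2 x * dot a2 e) / (dot a2 e * dot a2 e) := by
      field_simp
    rw [this]
    exact div_pos (by linarith) h2
  -- the sign condition at the new point
  have hsign : ∀ a ∈ A, 0 ≤ dot a x * dot a (x + t • e) := by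
    intro a ha
    rw [dot_add, dot_smul]
    by_cases hneg : dot a x * dot a e < 0
    · have hm := hmin a (mem_filter.mpr ⟨ha, hneg⟩)
      have hm : t ≤ -(dot a x) / dot a e := hm
      have hae : dot a e ≠ 0 := by
        intro h0; rw [h0, mul_zero] at hneg; exact lt_irrefl 0 hneg
      -- (x)(x + t e) = x² + t x e ≥ x² + (-x/e) x e = 0
      have h1 : dot a x * (-(dot a x) / dot a e * dot a e) = - (dot a x * dot a x) := by
        rw [div_mul_cancel₀ _ hae]; ring
      have h2 : (-(dot a x) / dot a e) * (dot a x * dot a e) ≤ t * (dot a x * dot a e) :=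
        mul_le_mul_of_nonpos_right hm hneg.le
      nlinarith
    · push Not at hneg
      nlinarith [mul_self_nonneg (dot a x), mul_nonneg htpos.le hneg]
  have hZsub : Zr A x ⊆ Zr A (x + t • e) := by
    intro a ha
    have ha' := mem_Zr.mp ha
    rw [mem_Zr, dot_add, dot_smul, ha'.2, heZ a ha]
    exact ⟨ha'.1, by ring⟩
  have hnew : a2 ∈ Zr A (x + t • e) := by
    rw [mem_Zr, dot_add, dot_smul, ht, div_mul_cancel₀ _ he2]
    exact ⟨ha2'.1, by ring⟩
  refine ⟨x + t • e, ?_, ?_, ?_⟩
  · intro a ha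
    have hs := hsign a ha
    have hxa := hx a ha
    by_cases h0 : dot a x = 0
    · have := (mem_Zr.mp (hZsub (mem_Zr.mpr ⟨ha, h0⟩))).2
      rw [this]
      exact ⟨fun _ => le_refl 0, fun _ => le_refl 0⟩
    · constructor
      · intro hS
        have h1 := hxa.1 hS
        have h2 : 0 < dot a x := lt_of_le_of_ne h1 (Ne.symm h0)
        exact (mul_nonneg_iff_of_pos_left h2).mp hs
      · intro hS
        have h1 := hxa.2 hS
        have h2 : dot a x < 0 := lt_of_le_of_ne h1 h0
        by_contra hc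
        push Not at hc
        nlinarith [mul_pos (neg_pos.mpr h2) hc]
  · rw [dot_add, dot_smul, heh, mul_zero, add_zero]; exact hpos
  · apply card_lt_card
    rw [ssubset_iff_of_subset hZsub]
    refine ⟨a2, hnew, fun h0 => hx2 (mem_Zr.mp h0).2⟩

/-- A linear form which is nonpositive on the vertices of a region is nonpositive on it. -/
theorem cone {A S : Finset V} (hR : Red A) (hsp : Spans A) {h : V}
    (hv : ∀ p ∈ adj A S, dot h (sv A p) ≤ 0) {x : V} (hx : Cl A S x) : dot h x ≤ 0 := by
  classical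
  by_contra hcon
  push Not at hcon
  have key : ∀ m : ℕ, ∃ y, Cl A S y ∧ 0 < dot h y ∧ m ≤ (Zr A y).card := by
    intro m
    induction m with
    | zero => exact ⟨x, hx, hcon, Nat.zero_le _⟩
    | succ m ih =>
      obtain ⟨y, hy, hy2, hym⟩ := ih
      by_cases h1 : (Zr A y).card ≤ 1
      · obtain ⟨y', h3, h4, h5⟩ := step hsp hy hy2 h1
        exact ⟨y', h3, h4, by omega⟩
      · exfalso
        have hy0 : y ≠ 0 := by
          rintro rfl; rw [dot_zero] at hy2; exact lt_irrefl 0 hy2
        obtain ⟨e, he, t, ht, het⟩ := sv_of hR hy0 (by omega)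
        have hadj : (Zr A y, e) ∈ adj A S := by
          rw [mem_adj]
          refine ⟨he, ?_⟩
          rw [het]; exact hy.smul ht.le
        have := hv _ hadj
        rw [het, dot_smul] at this
        nlinarith [mul_pos ht hy2]
  obtain ⟨y, _, _, hy⟩ := key (A.card + 1)
  have : (Zr A y).card ≤ A.card := card_le_card (fun a ha => (mem_Zr.mp ha).1)
  omega

theorem three_le_adj {A S : Finset V} (hR : Red A) (hsp : Spans A) (hS : S ∈ Reg A) :
    3 ≤ (adj A S).card := by
  classical
  by_contra hcon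
  obtain ⟨_, y, hy⟩ := mem_Reg.mp hS
  obtain ⟨u, v, huv⟩ : ∃ u v : V, ∀ p ∈ adj A S, sv A p = u ∨ sv A p = v := by
    have h2 : (adj A S).card ≤ 2 := by omega
    interval_cases h : (adj A S).card
    · rw [card_eq_zero] at h
      exact ⟨0, 0, fun p hp => by rw [h] at hp; exact absurd hp (notMem_empty p)⟩
    · obtain ⟨p0, hp0⟩ := card_eq_one.mp h
      refine ⟨sv A p0, 0, fun p hp => ?_⟩
      rw [hp0, mem_singleton] at hp
      left; rw [hp]
    · obtain ⟨p0, p1, _, hp0⟩ := card_eq_two.mp h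
      refine ⟨sv A p0, sv A p1, fun p hp => ?_⟩
      rw [hp0, mem_insert, mem_singleton] at hp
      rcases hp with rfl | rfl
      · left; rfl
      · right; rfl
  obtain ⟨h, hh, hu, hv⟩ := ex_orth u v
  have h1 : ∀ x, Cl A S x → dot h x ≤ 0 := fun x hx => cone hR hsp (fun p hp => by
    rcases huv p hp with e | e
    · rw [e, dot_comm, hu]
    · rw [e, dot_comm, hv]) hx
  obtain ⟨t, ht, hop⟩ := hy.pert_pos h
  have h2 : ∀ x, Cl A S x → dot (-h) x ≤ 0 := fun x hx => cone hR hsp (fun p hp => by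
    rcases huv p hp with e | e
    · rw [e, neg_dot, dot_comm, hu, neg_zero]
    · rw [e, neg_dot, dot_comm, hv, neg_zero]) hx
  have e1 := h1 _ hop.cl
  have e2 := h2 _ hy.cl
  rw [neg_dot] at e2
  rw [dot_add, dot_smul] at e1
  have := dot_self_pos hh
  nlinarith [mul_pos ht this]

theorem four_le_adj {A S : Finset V} (hR : Red A) (hsp : Spans A) {p q : Finset V × Bool}
    (hp : p ∈ adj A S) (hq : q ∈ adj A S) (hpq : p ≠ q) {b y : V} (hb : b ≠ 0)
    (hbp : dot b (sv A p) = 0) (hbq : dot b (sv A q) = 0) (hy : Op A S y) (hby : dot b y = 0) :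
    4 ≤ (adj A S).card := by
  classical
  by_contra hcon
  have hsub : ({p, q} : Finset (Finset V × Bool)) ⊆ adj A S := by
    intro r hr
    rw [mem_insert, mem_singleton] at hr
    rcases hr with rfl | rfl
    · exact hp
    · exact hq
  have hcard : (adj A S \ {p, q}).card ≤ 1 := by
    rw [card_sdiff_of_subset hsub, card_pair hpq]; omega
  obtain ⟨r0, hr0⟩ : ∃ r0, adj A S \ {p, q} ⊆ {r0} := card_le_one_iff_subset_singleton.mp hcard
  obtain ⟨h, hh, hhp, hhq, hhr, hhy⟩ : ∃ h : V, h ≠ 0 ∧ dot h (sv A p) = 0 ∧ dot h (sv A q) = 0 ∧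
      dot h (sv A r0) ≤ 0 ∧ dot h y = 0 := by
    rcases le_total (dot b (sv A r0)) 0 with h | h
    · exact ⟨b, hb, hbp, hbq, h, hby⟩
    · refine ⟨-b, neg_ne_zero.mpr hb, ?_, ?_, ?_, ?_⟩ <;> rw [neg_dot]
      · rw [hbp, neg_zero]
      · rw [hbq, neg_zero]
      · linarith
      · rw [hby, neg_zero]
  obtain ⟨t, ht, hop⟩ := hy.pert_pos h
  have h1 := cone hR hsp (h := h) (S := S) (fun r hr => by
    by_cases h2 : r ∈ ({p, q} : Finset (Finset V × Bool))
    · rw [mem_insert, mem_singleton] at h2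
      rcases h2 with rfl | rfl
      · exact hhp.le
      · exact hhq.le
    · have := hr0 (mem_sdiff.mpr ⟨hr, h2⟩)
      rw [mem_singleton] at this
      rw [this]; exact hhr) hop.cl
  rw [dot_add, dot_smul, hhy] at h1
  have := dot_self_pos hh
  nlinarith [mul_pos ht this]

/-- The incidences of regions and signed vertices. -/
theorem sum_adj_le {A : Finset V} (hR : Red A) :
    ∑ S ∈ Reg A, (adj A S).card ≤ 4 * ∑ L ∈ Lines A, L.card := by
  classical
  have h1 : ∑ S ∈ Reg A, (adj A S).card
      = ∑ p ∈ SV A, ((Reg A).filter (fun S => Cl A S (sv A p))).card := by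
    simp only [adj, card_filter]
    rw [sum_comm]
  have h2 : ∀ p ∈ SV A, ((Reg A).filter (fun S => Cl A S (sv A p))).card ≤ 2 * p.1.card := by
    intro p hp
    have hL := mem_SV.mp hp
    have hsub := Lines_subset hL
    have hne : p.1.Nonempty := by
      rw [← card_pos]
      have := (mem_Lines.mp hL).1
      omega
    have hsv := sv_ne hp
    have hup := Reg_upper (hR.mono hsub) hne hsv (fun a ha => by
      rw [← Zr_sv hp, mem_Zr] at ha; exact ha.2)
    refine le_trans ?_ hup
    apply card_le_card_of_injOn (fun S => S.filter (fun a => a ∈ p.1))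
    · intro S hS
      have hS := mem_filter.mp (mem_coe.mp hS)
      obtain ⟨_, y, hy⟩ := mem_Reg.mp hS.1
      rw [mem_coe, mem_Reg]
      refine ⟨fun a ha => (mem_filter.mp ha).2, y, fun a ha => ?_⟩
      have := hy a (hsub ha)
      simp only [mem_filter, ha, and_true]
      exact this
    · intro S hS T hT hST
      have hST : S.filter (fun a => a ∈ p.1) = T.filter (fun a => a ∈ p.1) := hST
      have hS := mem_filter.mp (mem_coe.mp hS)
      have hT := mem_filter.mp (mem_coe.mp hT)
      have hSA := (mem_Reg.mp hS.1).1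
      have hTA := (mem_Reg.mp hT.1).1
      have aux : ∀ S T : Finset V, Cl A S (sv A p) → Cl A T (sv A p) → S ⊆ A →
          S.filter (fun a => a ∈ p.1) = T.filter (fun a => a ∈ p.1) → S ⊆ T := by
        intro S T hS hT hSA he a ha
        by_cases hap : a ∈ p.1
        · have : a ∈ S.filter (fun a => a ∈ p.1) := mem_filter.mpr ⟨ha, hap⟩
          rw [he] at this
          exact (mem_filter.mp this).1
        · by_contra hc
          have h1 := (hS a (hSA ha)).1 ha
          have h2 := (hT a (hSA ha)).2 hc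
          apply hap
          rw [← Zr_sv hp, mem_Zr]
          exact ⟨hSA ha, le_antisymm h2 h1⟩
      exact Subset.antisymm (aux S T hS.2 hT.2 hSA hST) (aux T S hT.2 hS.2 hTA hST.symm)
  rw [h1]
  refine (sum_le_sum h2).trans ?_
  unfold SV
  rw [sum_product, mul_sum]
  apply sum_le_sum
  intro L _
  simp only [sum_const, card_univ, Fintype.card_bool, smul_eq_mul]
  omega

end Pool.Agent.Helper65.Blk
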