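import Mathlib
import Pool.Agent.Helper65.Blk.Cone

/-! The walk along a green line from a red vertex to the next red crossing. -/

namespace Pool.Agent.Helper65.Blk

open Finset Filter Topology

/-- The next red crossing on the plane of b after x, in the direction of crs b x times e. -/
theorem exists_next {A : Finset V} (hsp : Spans A) {b x : V} (hx : x ≠ 0) (e : ℝ) :
    ∃ c : ℝ, ∃ a0 ∈ A, dot a0 (e • crs b x + c • x) = 0 ∧
      ∀ a ∈ A, 0 ≤ dot a x * dot a (e • crs b x + c • x) := by
  classical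
  set u := e • crs b x with hu
  clear_value u
  set N := A.filter (fun a => dot a x ≠ 0) with hN
  have hNne : N.Nonempty := by
    by_contra h
    rw [not_nonempty_iff_eq_empty, filter_eq_empty_iff] at h
    apply hx
    apply hsp
    intro a ha
    have := h ha
    push Not at this
    exact this
  obtain ⟨a0, ha0, hmax⟩ := exists_max_image N (fun a => -(dot a u) / dot a x) hNne
  have ha0' := mem_filter.mp ha0
  refine ⟨-(dot a0 u) / dot a0 x, a0, ha0'.1, ?_, ?_⟩
  · rw [dot_add, dot_smul, div_mul_cancel₀ _ ha0'.2]; ring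
  · intro a ha
    by_cases h0 : dot a x = 0
    · rw [h0, zero_mul]
    · have hm := hmax a (mem_filter.mpr ⟨ha, h0⟩)
      have hm : -(dot a u) / dot a x ≤ -(dot a0 u) / dot a0 x := hm
      rw [dot_add, dot_smul]
      have h1 : -(dot a u) / dot a x * (dot a x * dot a x) = -(dot a u) * dot a x := by
        rw [← mul_assoc, div_mul_cancel₀ _ h0]
      have h2 : 0 ≤ dot a x * dot a x := mul_self_nonneg _
      have h3 := mul_le_mul_of_nonneg_right hm h2
      nlinarith

/-- The data of a blocked arrangement. -/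
structure Blocked (A B : Finset V) (g : Finset V → V) : Prop where
  red : Red A
  spans : Spans A
  npar : ∀ b ∈ B, ∀ a ∈ A, crs b a ≠ 0
  mem : ∀ L ∈ Lines A, g L ∈ B
  on : ∀ L ∈ Lines A, dot (g L) (vx A L) = 0

/-- A dart: a signed vertex and a direction. -/
abbrev Dt : Type := (Finset V × Bool) × Bool

noncomputable def Darts (A : Finset V) : Finset Dt := SV A ×ˢ univ

theorem mem_Darts {A : Finset V} {d : Dt} : d ∈ Darts A ↔ d.1 ∈ SV A := by
  simp [Darts]

theorem exists_next' {A : Finset V} (hsp : Spans A) (g : Finset V → V) (d : Dt) :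
    ∃ ca : ℝ × V, d ∈ Darts A → ca.2 ∈ A ∧
      dot ca.2 (sg d.2 • crs (g d.1.1) (sv A d.1) + ca.1 • sv A d.1) = 0 ∧
      ∀ a ∈ A, 0 ≤ dot a (sv A d.1) *
        dot a (sg d.2 • crs (g d.1.1) (sv A d.1) + ca.1 • sv A d.1) := by
  by_cases hd : d ∈ Darts A
  · obtain ⟨c, a0, h1, h2, h3⟩ := exists_next hsp (b := g d.1.1) (sv_ne (mem_Darts.mp hd)) (sg d.2)
    exact ⟨(c, a0), fun _ => ⟨h1, h2, h3⟩⟩
  · exact ⟨0, fun h => absurd h hd⟩

section
variable {A B : Finset V} {g : Finset V → V} (H : Blocked A B g) (cf : Dt → ℝ) (af : Dt → V)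

/-- The next crossing of a dart. -/
noncomputable def zz (A : Finset V) (g : Finset V → V) (cf : Dt → ℝ) (d : Dt) : V :=
  sg d.2 • crs (g d.1.1) (sv A d.1) + cf d • sv A d.1

/-- The defining property of the chosen crossings. -/
def Good (A : Finset V) (g : Finset V → V) (cf : Dt → ℝ) (af : Dt → V) : Prop :=
  ∀ d ∈ Darts A, af d ∈ A ∧ dot (af d) (zz A g cf d) = 0 ∧
    ∀ a ∈ A, 0 ≤ dot a (sv A d.1) * dot a (zz A g cf d)

include H in
theorem g_sv {d : Dt} (hd : d ∈ Darts A) : dot (g d.1.1) (sv A d.1) = 0 := by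
  unfold sv
  rw [dot_smul, H.on _ (mem_SV.mp (mem_Darts.mp hd)), mul_zero]

include H in
theorem g_zz {d : Dt} (hd : d ∈ Darts A) : dot (g d.1.1) (zz A g cf d) = 0 := by
  unfold zz
  rw [dot_add, dot_smul, dot_smul, g_sv H hd, dot_crs_self]; ring

include H in
theorem g_mem {d : Dt} (hd : d ∈ Darts A) : g d.1.1 ∈ B := H.mem _ (mem_SV.mp (mem_Darts.mp hd))

include H in
theorem A_nonempty : A.Nonempty := by
  by_contra h
  rw [not_nonempty_iff_eq_empty] at h
  have := H.spans (1, 0, 0) (fun a ha => by rw [h] at ha; exact absurd ha (notMem_empty a))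
  exact one_ne_zero (congrArg (fun w : V => w.1) this)

include H in
theorem g_ne {d : Dt} (hd : d ∈ Darts A) : g d.1.1 ≠ 0 := by
  obtain ⟨a, ha⟩ := A_nonempty H
  exact ne_zero_of_crs_left (H.npar _ (g_mem H hd) a ha)

include H in
theorem crs_gsv_ne {d : Dt} (hd : d ∈ Darts A) : crs (g d.1.1) (sv A d.1) ≠ 0 :=
  crs_ne_of_perp (g_ne H hd) (sv_ne (mem_Darts.mp hd)) (g_sv H hd)

include H in
/-- A red form does not vanish at both x and the rotated x. -/
theorem not_both {d : Dt} (hd : d ∈ Darts A) {a : V} (ha : a ∈ A)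
    (h1 : dot a (sv A d.1) = 0) : dot a (crs (g d.1.1) (sv A d.1)) ≠ 0 := by
  intro h2
  apply H.npar _ (g_mem H hd) a ha
  exact par_of_zeros (x := sv A d.1) (y := crs (g d.1.1) (sv A d.1))
    (crs_ne_of_perp (sv_ne (mem_Darts.mp hd)) (crs_gsv_ne H hd) (dot_crs_self' _ _))
    (g_sv H hd) (dot_crs_self _ _) h1 h2

include H in
theorem zz_ne {d : Dt} (hd : d ∈ Darts A) : zz A g cf d ≠ 0 := by
  intro h0
  have h1 := congrArg (dot (crs (g d.1.1) (sv A d.1))) h0
  unfold zz at h1
  rw [dot_zero, dot_add, dot_smul, dot_smul, dot_comm _ (sv A d.1), dot_crs_self', mul_zero,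
    add_zero] at h1
  rcases mul_eq_zero.mp h1 with h | h
  · exact sg_ne _ h
  · exact absurd h (dot_self_pos (crs_gsv_ne H hd)).ne'

include H in
theorem mid_ne (hG : Good A g cf af) {d : Dt} (hd : d ∈ Darts A) {a : V} (ha : a ∈ A) :
    dot a (sv A d.1 + zz A g cf d) ≠ 0 := by
  intro h0
  rw [dot_add] at h0
  have h1 := (hG d hd).2.2 a ha
  have h2 : dot a (sv A d.1) = 0 := by nlinarith [mul_self_nonneg (dot a (sv A d.1))]
  have h3 : dot a (zz A g cf d) = 0 := by linarith
  unfold zz at h3
  rw [dot_add, dot_smul, dot_smul, h2, mul_zero, add_zero] at h3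
  rcases mul_eq_zero.mp h3 with h | h
  · exact sg_ne _ h
  · exact not_both H hd ha h2 h

open Classical in
/-- The region entered by the dart. -/
noncomputable def rg (A : Finset V) (g : Finset V → V) (cf : Dt → ℝ) (d : Dt) : Finset V :=
  A.filter (fun a => 0 < dot a (sv A d.1 + zz A g cf d))

include H in
theorem rg_op (hG : Good A g cf af) {d : Dt} (hd : d ∈ Darts A) :
    Op A (rg A g cf d) (sv A d.1 + zz A g cf d) := by
  classical
  intro a ha
  have hne := mid_ne H cf af hG hd ha
  constructor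
  · intro h
    exact (mem_filter.mp h).2
  · intro h
    refine lt_of_le_of_ne ?_ hne
    by_contra hc
    push Not at hc
    exact h (mem_filter.mpr ⟨ha, hc⟩)

include H in
theorem rg_mem (hG : Good A g cf af) {d : Dt} (hd : d ∈ Darts A) : rg A g cf d ∈ Reg A := by
  classical
  rw [mem_Reg]
  exact ⟨filter_subset _ _, _, rg_op H cf af hG hd⟩

include H in
theorem rg_cl (hG : Good A g cf af) {d : Dt} (hd : d ∈ Darts A) :
    Cl A (rg A g cf d) (sv A d.1) ∧ Cl A (rg A g cf d) (zz A g cf d) := by
  have hop := rg_op H cf af hG hd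
  have aux : ∀ a ∈ A, (a ∈ rg A g cf d → 0 ≤ dot a (sv A d.1) ∧ 0 ≤ dot a (zz A g cf d)) ∧
      (a ∉ rg A g cf d → dot a (sv A d.1) ≤ 0 ∧ dot a (zz A g cf d) ≤ 0) := by
    intro a ha
    have h1 := (hG d hd).2.2 a ha
    constructor
    · intro h
      have h2 := (hop a ha).1 h
      rw [dot_add] at h2
      constructor
      · by_contra hc
        push Not at hc
        nlinarith [mul_pos (neg_pos.mpr hc) (show 0 < dot a (zz A g cf d) by linarith)]
      · by_contra hc
        push Not at hc
        nlinarith [mul_pos (neg_pos.mpr hc) (show 0 < dot a (sv A d.1) by linarith)]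
    · intro h
      have h2 := (hop a ha).2 h
      rw [dot_add] at h2
      constructor
      · by_contra hc
        push Not at hc
        nlinarith [mul_pos hc (show 0 < -dot a (zz A g cf d) by linarith)]
      · by_contra hc
        push Not at hc
        nlinarith [mul_pos hc (show 0 < -dot a (sv A d.1) by linarith)]
  exact ⟨fun a ha => ⟨fun h => ((aux a ha).1 h).1, fun h => ((aux a ha).2 h).1⟩,
    fun a ha => ⟨fun h => ((aux a ha).1 h).2, fun h => ((aux a ha).2 h).2⟩⟩

/-- Diagonal darts. -/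
def Diag (A : Finset V) (g : Finset V → V) (cf : Dt → ℝ) (d : Dt) : Prop :=
  2 ≤ (Zr A (zz A g cf d)).card ∧ g (Zr A (zz A g cf d)) = g d.1.1

include H in
theorem diag_four (hG : Good A g cf af) {d : Dt} (hd : d ∈ Darts A) (hdg : Diag A g cf d) :
    4 ≤ (adj A (rg A g cf d)).card := by
  obtain ⟨e, he, t, ht, het⟩ := sv_of H.red (zz_ne H cf hd) hdg.1
  have hcl := rg_cl H cf af hG hd
  have hp : d.1 ∈ adj A (rg A g cf d) := mem_adj.mpr ⟨mem_Darts.mp hd, hcl.1⟩
  have hq : (Zr A (zz A g cf d), e) ∈ adj A (rg A g cf d) := by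
    rw [mem_adj]
    refine ⟨he, ?_⟩
    rw [het]; exact hcl.2.smul ht.le
  refine four_le_adj H.red H.spans hp hq ?_ (g_ne H hd) (g_sv H hd) ?_
    (rg_op H cf af hG hd) ?_
  · intro hpq
    have h1 : Zr A (sv A d.1) = Zr A (zz A g cf d) := by
      rw [Zr_sv (mem_Darts.mp hd), hpq]
    obtain ⟨a, ha⟩ : (Zr A (zz A g cf d)).Nonempty := by
      rw [← card_pos]; have := hdg.1; omega
    have h2 := ha
    rw [← h1, mem_Zr] at h2
    rw [mem_Zr] at ha
    apply mid_ne H cf af hG hd ha.1
    rw [dot_add, h2.2, ha.2, add_zero]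
  · rw [het, dot_smul, g_zz H cf hd, mul_zero]
  · rw [dot_add, g_sv H hd, g_zz H cf hd, add_zero]

include H in
/-- In a fixed region a signed vertex has at most one dart. -/
theorem dart_inj (hG : Good A g cf af) {d d' : Dt} (hd : d ∈ Darts A) (hd' : d' ∈ Darts A)
    (h1 : d.1 = d'.1) (hrg : rg A g cf d = rg A g cf d') : d = d' := by
  refine Prod.ext h1 ?_
  by_contra hne
  have hsg : sg d'.2 = - sg d.2 := by
    rcases hb : d.2 with _ | _ <;> rcases hb' : d'.2 with _ | _
    · exact absurd (hb.trans hb'.symm) hne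
    · simp [sg]
    · simp [sg]
    · exact absurd (hb.trans hb'.symm) hne
  have hL := mem_SV.mp (mem_Darts.mp hd)
  obtain ⟨a, ha⟩ : d.1.1.Nonempty := by
    rw [← card_pos]; have := (mem_Lines.mp hL).1; omega
  have ha' := ha
  rw [← Zr_sv (mem_Darts.mp hd), mem_Zr] at ha'
  have hu := not_both H hd ha'.1 ha'.2
  have e1 : dot a (sv A d.1 + zz A g cf d) = sg d.2 * dot a (crs (g d.1.1) (sv A d.1)) := by
    unfold zz
    rw [dot_add, dot_add, dot_smul, dot_smul, ha'.2]; ring
  have e2 : dot a (sv A d'.1 + zz A g cf d') = - (sg d.2 * dot a (crs (g d.1.1) (sv A d.1))) := by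
    unfold zz
    rw [dot_add, dot_add, dot_smul, dot_smul, ← h1, ha'.2, hsg]; ring
  have o1 := rg_op H cf af hG hd a ha'.1
  have o2 := rg_op H cf af hG hd' a ha'.1
  rw [← hrg, e2] at o2
  rw [e1] at o1
  by_cases hS : a ∈ rg A g cf d
  · have := o1.1 hS
    have := o2.1 hS
    linarith
  · have := o1.2 hS
    have := o2.2 hS
    linarith

open Classical in
include H in
theorem card_diag_le (hG : Good A g cf af) :
    (((Darts A).filter (fun d => Diag A g cf d)).card : ℤ)
      ≤ ∑ S ∈ Reg A, 4 * (((adj A S).card : ℤ) - 3) := by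
  have h1 := card_eq_sum_card_fiberwise (s := (Darts A).filter (fun d => Diag A g cf d))
    (t := Reg A) (f := fun d => rg A g cf d) (fun d hd => by
      have := (mem_filter.mp (mem_coe.mp hd)).1
      exact mem_coe.mpr (rg_mem H cf af hG this))
  rw [h1]
  push_cast
  apply sum_le_sum
  intro S hS
  set F := ((Darts A).filter (fun d => Diag A g cf d)).filter (fun d => rg A g cf d = S) with hF
  have h3 := three_le_adj H.red H.spans hS
  rcases F.eq_empty_or_nonempty with he | ⟨d, hd⟩
  · rw [he, card_empty]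
    push_cast
    have : (3 : ℤ) ≤ ((adj A S).card : ℤ) := by exact_mod_cast h3
    linarith
  · have hd1 := mem_filter.mp hd
    have hd2 := mem_filter.mp hd1.1
    have h4 := diag_four H cf af hG hd2.1 hd2.2
    rw [hd1.2] at h4
    have h5 : F.card ≤ (adj A S).card := by
      apply card_le_card_of_injOn (fun d => d.1)
      · intro d hd
        have hd1 := mem_filter.mp (mem_coe.mp hd)
        have hd2 := mem_filter.mp hd1.1
        rw [mem_coe, mem_adj, ← hd1.2]
        exact ⟨mem_Darts.mp hd2.1, (rg_cl H cf af hG hd2.1).1⟩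
      · intro d hd d' hd' he
        have hd1 := mem_filter.mp (mem_coe.mp hd)
        have hd1' := mem_filter.mp (mem_coe.mp hd')
        exact dart_inj H cf af hG (mem_filter.mp hd1.1).1 (mem_filter.mp hd1'.1).1 he
          (hd1.2.trans hd1'.2.symm)
    have h4' : (4 : ℤ) ≤ ((adj A S).card : ℤ) := by exact_mod_cast h4
    have h5' : (F.card : ℤ) ≤ ((adj A S).card : ℤ) := by exact_mod_cast h5
    linarith

open Classical in
/-- The incidences owned by the vertices. -/
noncomputable def Own (A : Finset V) (g : Finset V → V) : Finset (V × V) :=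
  (Lines A).biUnion (fun L => L.image (fun a => (g L, a)))

include H in
theorem own_inj {L L' : Finset V} (hL : L ∈ Lines A) (hL' : L' ∈ Lines A) {a : V} (ha : a ∈ L)
    (ha' : a ∈ L') (hg : g L = g L') : L = L' := by
  have h1 := vx_spec hL
  have h2 := vx_spec hL'
  have hA := Lines_subset hL ha
  have hn := H.npar _ (H.mem L hL) a hA
  have o1 := H.on L hL
  have o2 := H.on L' hL'
  rw [← hg] at o2
  have ha1 := ha
  have ha1' := ha'
  rw [h1.2, mem_Zr] at ha1
  rw [h2.2, mem_Zr] at ha1'
  rw [h1.2, h2.2]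
  exact Zr_eq_of_two hn h1.1 h2.1 o1 ha1.2 o2 ha1'.2

include H in
theorem card_own : (Own A g).card = ∑ L ∈ Lines A, L.card := by
  classical
  unfold Own
  rw [card_biUnion]
  · apply sum_congr rfl
    intro L _
    rw [card_image_of_injective]
    intro a b hab
    exact (Prod.ext_iff.mp hab).2
  · intro L hL L' hL' hne
    show Disjoint _ _
    rw [Finset.disjoint_left]
    intro q hq hq'
    obtain ⟨a, ha, rfl⟩ := mem_image.mp hq
    obtain ⟨a', ha', he⟩ := mem_image.mp hq'
    have he1 := (Prod.ext_iff.mp he).1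
    have he2 := (Prod.ext_iff.mp he).2
    simp only at he1 he2
    rw [he2] at ha'
    exact hne (own_inj H hL hL' ha ha' he1.symm)

include H in
theorem own_subset : Own A g ⊆ B ×ˢ A := by
  classical
  intro q hq
  unfold Own at hq
  obtain ⟨L, hL, hq⟩ := mem_biUnion.mp hq
  obtain ⟨a, ha, rfl⟩ := mem_image.mp hq
  exact mem_product.mpr ⟨H.mem L hL, Lines_subset hL ha⟩

include H in
/-- The crossing of a dart which is not diagonal is not owned. -/
theorem not_own (hG : Good A g cf af) {d : Dt} (hd : d ∈ Darts A) (hdg : ¬ Diag A g cf d) :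
    (g d.1.1, af d) ∉ Own A g := by
  classical
  intro hq
  unfold Own at hq
  obtain ⟨L, hL, hq⟩ := mem_biUnion.mp hq
  obtain ⟨a, ha, he⟩ := mem_image.mp hq
  have he1 := (Prod.ext_iff.mp he).1
  have he2 := (Prod.ext_iff.mp he).2
  simp only at he1 he2
  subst he2
  apply hdg
  have hv := vx_spec hL
  have ha1 := ha
  rw [hv.2, mem_Zr] at ha1
  have hn := H.npar _ (g_mem H hd) (af d) (hG d hd).1
  have o := H.on L hL
  rw [he1] at o
  have hZ : Zr A (zz A g cf d) = L := by
    rw [hv.2]
    exact Zr_eq_of_two hn (zz_ne H cf hd) hv.1 (g_zz H cf hd) (hG d hd).2.1 o ha1.2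
  unfold Diag
  rw [hZ]
  exact ⟨(mem_Lines.mp hL).1, he1⟩

include H in
/-- The signed vertex is recovered from the crossing, up to a positive factor. -/
theorem recover {d : Dt} (hd : d ∈ Darts A) :
    cf d • zz A g cf d - sg d.2 • crs (g d.1.1) (zz A g cf d)
      = (cf d * cf d + dot (g d.1.1) (g d.1.1)) • sv A d.1 := by
  have h1 := g_sv H hd
  have h2 := sg_mul_self d.2
  unfold zz
  rw [crs_add, crs_smul, crs_smul, crs_crs_self, h1]
  rw [zero_smul, zero_sub]
  have h3 : sg d.2 • sg d.2 • -(dot (g d.1.1) (g d.1.1) • sv A d.1)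
      = -(dot (g d.1.1) (g d.1.1) • sv A d.1) := by
    rw [smul_smul, h2, one_smul]
  rw [smul_add (sg d.2), h3, smul_add, smul_smul, smul_smul, smul_smul, add_smul,
    mul_comm (sg d.2) (cf d)]
  abel

include H in
/-- Two darts on the same green line, in the same direction and with the same crossing have the
same origin. -/
theorem back_le (hG : Good A g cf af) {d d' : Dt} (hd : d ∈ Darts A) (hd' : d' ∈ Darts A)
    (hg : g d.1.1 = g d'.1.1) (hs : d.2 = d'.2) {m : ℝ} (hm : 0 < m)
    (hz : zz A g cf d' = m • zz A g cf d) : cf d ≤ cf d' := by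
  by_contra hlt
  push Not at hlt
  have r1 := recover H cf hd
  have r2 := recover H cf hd'
  rw [← hg, ← hs, hz, crs_smul] at r2
  set z := zz A g cf d with hzd
  set b := g d.1.1 with hb
  -- a form through the origin of d
  have hL := mem_SV.mp (mem_Darts.mp hd)
  obtain ⟨a, ha⟩ : d.1.1.Nonempty := by
    rw [← card_pos]; have := (mem_Lines.mp hL).1; omega
  rw [← Zr_sv (mem_Darts.mp hd), mem_Zr] at ha
  have e1 := congrArg (dot a) r1
  have e2 := congrArg (dot a) r2
  rw [sub_eq_add_neg, dot_add, dot_neg, dot_smul, dot_smul, dot_smul, ha.2, mul_zero] at e1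
  rw [sub_eq_add_neg, dot_add, dot_neg, dot_smul, dot_smul, dot_smul, dot_smul, dot_smul] at e2
  have hz0 : dot a z ≠ 0 := by
    intro h0
    apply mid_ne H cf af hG hd ha.1
    rw [dot_add, ha.2, ← hzd, h0, add_zero]
  have hG' := (hG d' hd').2.2 a ha.1
  rw [hz, dot_smul] at hG'
  have hbb : 0 < dot b b := dot_self_pos (g_ne H hd)
  have hpos : 0 < cf d' * cf d' + dot b b := by nlinarith [mul_self_nonneg (cf d')]
  have e3 : (cf d' * cf d' + dot b b) * dot a (sv A d'.1) = m * ((cf d' - cf d) * dot a z) := by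
    rw [← e2]; linear_combination m * e1
  have h5 : 0 < dot a z * dot a z := mul_self_pos.mpr hz0
  have h6 : (cf d' * cf d' + dot b b) * (dot a (sv A d'.1) * (m * dot a z))
      = m * m * (cf d' - cf d) * (dot a z * dot a z) := by
    linear_combination (m * dot a z) * e3
  have h7 : 0 ≤ (cf d' * cf d' + dot b b) * (dot a (sv A d'.1) * (m * dot a z)) :=
    mul_nonneg hpos.le hG'
  have h8 : 0 < m * m * (cf d - cf d') * (dot a z * dot a z) := by
    have : 0 < cf d - cf d' := by linarith
    positivity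
  nlinarith

include H in
theorem back_inj (hG : Good A g cf af) {d d' : Dt} (hd : d ∈ Darts A) (hd' : d' ∈ Darts A)
    (hg : g d.1.1 = g d'.1.1) (hs : d.2 = d'.2) {m : ℝ} (hm : 0 < m)
    (hz : zz A g cf d' = m • zz A g cf d) : d = d' := by
  have h1 := back_le H cf af hG hd hd' hg hs hm hz
  have hz' : zz A g cf d = m⁻¹ • zz A g cf d' := by
    rw [hz, smul_smul, inv_mul_cancel₀ hm.ne', one_smul]
  have h2 := back_le H cf af hG hd' hd hg.symm hs.symm (inv_pos.mpr hm) hz'
  have hc : cf d = cf d' := le_antisymm h1 h2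
  have r1 := recover H cf hd
  have r2 := recover H cf hd'
  rw [← hg, ← hs, hz, crs_smul, ← hc] at r2
  have hbb : 0 < dot (g d.1.1) (g d.1.1) := dot_self_pos (g_ne H hd)
  have hpos : 0 < cf d * cf d + dot (g d.1.1) (g d.1.1) := by nlinarith [mul_self_nonneg (cf d)]
  have e : sv A d'.1 = m • sv A d.1 := by
    have h3 : (cf d * cf d + dot (g d.1.1) (g d.1.1)) • sv A d'.1
        = (cf d * cf d + dot (g d.1.1) (g d.1.1)) • (m • sv A d.1) := by
      rw [← r2, smul_comm _ m (sv A d.1), ← r1, smul_sub, smul_comm m (cf d), smul_comm m (sg d.2)]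
    exact smul_right_injective V hpos.ne' h3
  have h4 := sv_inj (mem_Darts.mp hd') (mem_Darts.mp hd) hm e
  exact Prod.ext h4.symm hs

open Classical in
include H in
theorem card_nondiag_le (hG : Good A g cf af) :
    ((Darts A).filter (fun d => ¬ Diag A g cf d)).card ≤ 4 * ((B ×ˢ A) \ Own A g).card := by
  -- the sign of the crossing against the cross product
  let si : Dt → Bool := fun d => decide (0 < dot (crs (g d.1.1) (af d)) (zz A g cf d))
  have hcard : ((Darts A).filter (fun d => ¬ Diag A g cf d)).card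
      ≤ ((((B ×ˢ A) \ Own A g) ×ˢ (univ : Finset Bool)) ×ˢ (univ : Finset Bool)).card := by
    apply card_le_card_of_injOn (fun d => (((g d.1.1, af d), si d), d.2))
    · intro d hd
      have hd := mem_filter.mp (mem_coe.mp hd)
      exact mem_coe.mpr (mem_product.mpr ⟨mem_product.mpr ⟨mem_sdiff.mpr
        ⟨mem_product.mpr ⟨g_mem H hd.1, (hG d hd.1).1⟩, not_own H cf af hG hd.1 hd.2⟩,
        mem_univ _⟩, mem_univ _⟩)
    · intro d hd d' hd' he
      have hd := mem_filter.mp (mem_coe.mp hd)
      have hd' := mem_filter.mp (mem_coe.mp hd')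
      have e2 : d.2 = d'.2 := (Prod.ext_iff.mp he).2
      have e1 := (Prod.ext_iff.mp he).1
      have e3 : si d = si d' := (Prod.ext_iff.mp e1).2
      have e4 := (Prod.ext_iff.mp e1).1
      have e5 : g d.1.1 = g d'.1.1 := (Prod.ext_iff.mp e4).1
      have e6 : af d = af d' := (Prod.ext_iff.mp e4).2
      have hn := H.npar _ (g_mem H hd.1) (af d) (hG d hd.1).1
      obtain ⟨t, ht⟩ := ann hn (g_zz H cf hd.1) (hG d hd.1).2.1
      have g1 := g_zz H cf hd'.1
      have g2 := (hG d' hd'.1).2.1
      rw [← e5] at g1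
      rw [← e6] at g2
      obtain ⟨t', ht'⟩ := ann hn g1 g2
      have hw := dot_self_pos hn
      have ht0 : t ≠ 0 := by
        rintro rfl; exact zz_ne H cf hd.1 (by rw [ht, zero_smul])
      have ht0' : t' ≠ 0 := by
        rintro rfl; exact zz_ne H cf hd'.1 (by rw [ht', zero_smul])
      have hsi : (0 < t ↔ 0 < t') := by
        have h1 : (0 < dot (crs (g d.1.1) (af d)) (zz A g cf d)) ↔ 0 < t := by
          rw [ht, dot_smul]
          exact mul_pos_iff_of_pos_right hw
        have h2 : (0 < dot (crs (g d'.1.1) (af d')) (zz A g cf d')) ↔ 0 < t' := by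
          rw [← e5, ← e6, ht', dot_smul]
          exact mul_pos_iff_of_pos_right hw
        have h3 := decide_eq_decide.mp e3
        rw [h1, h2] at h3
        exact h3
      have hm : 0 < t' / t := by
        rcases lt_or_gt_of_ne ht0 with h | h
        · have h' : t' < 0 := by
            rcases lt_or_gt_of_ne ht0' with h' | h'
            · exact h'
            · exact absurd (hsi.mpr h') (not_lt.mpr h.le)
          exact div_pos_of_neg_of_neg h' h
        · exact div_pos (hsi.mp h) h
      refine back_inj H cf af hG hd.1 hd'.1 e5 e2 hm ?_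
      rw [ht, ht', smul_smul, div_mul_cancel₀ _ ht0]
  rw [card_product, card_product, card_univ, Fintype.card_bool] at hcard
  omega

end

/-- The main inequality, dual form. -/
theorem main_dual {A B : Finset V} {g : Finset V → V} (H : Blocked A B g) :
    6 + ∑ L ∈ Lines A, (3 * (L.card : ℤ) - 5) ≤ (A.card : ℤ) * B.card := by
  classical
  have hch := fun d : Dt => exists_next' H.spans g d
  choose ca hca using hch
  set cf : Dt → ℝ := fun d => (ca d).1 with hcf
  set af : Dt → V := fun d => (ca d).2 with haf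
  have hG : Good A g cf af := fun d hd => hca d hd
  have h1 := card_diag_le H cf af hG
  have h2 := card_nondiag_le H cf af hG
  have h3 := sum_adj_le H.red
  have h4 := Reg_lower H.red (A_nonempty H)
  have h5 : ((Darts A).filter (fun d => Diag A g cf d)).card
      + ((Darts A).filter (fun d => ¬ Diag A g cf d)).card = 4 * (Lines A).card := by
    rw [card_filter_add_card_filter_not]
    unfold Darts SV
    rw [card_product, card_product, card_univ, Fintype.card_bool]; ring
  have h6 : ((B ×ˢ A) \ Own A g).card + ∑ L ∈ Lines A, L.card = A.card * B.card := by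
    rw [← card_own H, card_sdiff_add_card_eq_card (own_subset H), card_product, mul_comm]
  have h7 : (Phi A : ℤ) = ∑ L ∈ Lines A, ((L.card : ℤ) - 1) := by
    unfold Phi
    push_cast
    apply sum_congr rfl
    intro L hL
    have := (mem_Lines.mp hL).1
    rw [Nat.cast_sub (by omega)]; norm_num
  have h8 : ∑ S ∈ Reg A, 4 * (((adj A S).card : ℤ) - 3)
      = 4 * ((∑ S ∈ Reg A, (adj A S).card : ℕ) : ℤ) - 12 * ((Reg A).card : ℤ) := by
    rw [← mul_sum, sum_sub_distrib, sum_const, nsmul_eq_mul]
    push_cast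
    ring
  rw [sum_sub_distrib, sum_const, nsmul_eq_mul, mul_one] at h7
  rw [sum_sub_distrib, sum_const, nsmul_eq_mul, ← mul_sum]
  have h3' : ((∑ S ∈ Reg A, (adj A S).card : ℕ) : ℤ) ≤ 4 * ∑ L ∈ Lines A, (L.card : ℤ) := by
    have := (Nat.cast_le (α := ℤ)).mpr h3
    push_cast at this ⊢
    exact this
  have h6' : ((((B ×ˢ A) \ Own A g).card : ℕ) : ℤ) + ∑ L ∈ Lines A, (L.card : ℤ)
      = (A.card : ℤ) * B.card := by
    have := congrArg (Nat.cast : ℕ → ℤ) h6
    push_cast at this
    exact this
  have h2' : ((((Darts A).filter (fun d => ¬ Diag A g cf d)).card : ℕ) : ℤ)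
      ≤ 4 * ((((B ×ˢ A) \ Own A g).card : ℕ) : ℤ) := by exact_mod_cast h2
  have h5' : ((((Darts A).filter (fun d => Diag A g cf d)).card : ℕ) : ℤ)
      + ((((Darts A).filter (fun d => ¬ Diag A g cf d)).card : ℕ) : ℤ)
      = 4 * (((Lines A).card : ℕ) : ℤ) := by exact_mod_cast h5
  have h4' : (2 : ℤ) + 2 * (Phi A : ℤ) ≤ ((Reg A).card : ℤ) := by exact_mod_cast h4
  rw [h8] at h1
  linarith

/-- Melchior's inequality, dual form. -/
theorem melchior_dual {A : Finset V} (hR : Red A) (hsp : Spans A) :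
    3 + ∑ L ∈ Lines A, ((L.card : ℤ) - 3) ≤ 0 := by
  classical
  have hne : A.Nonempty := by
    by_contra h
    rw [not_nonempty_iff_eq_empty] at h
    have := hsp (1, 0, 0) (fun a ha => by rw [h] at ha; exact absurd ha (notMem_empty a))
    exact one_ne_zero (congrArg (fun w : V => w.1) this)
  have h3 := sum_adj_le hR
  have h4 := Reg_lower hR hne
  have h5 : 3 * (Reg A).card ≤ ∑ S ∈ Reg A, (adj A S).card := by
    have : ∑ S ∈ Reg A, 3 ≤ ∑ S ∈ Reg A, (adj A S).card :=
      sum_le_sum (fun S hS => three_le_adj hR hsp hS)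
    rw [sum_const, smul_eq_mul] at this
    omega
  have h7 : (Phi A : ℤ) = ∑ L ∈ Lines A, ((L.card : ℤ) - 1) := by
    unfold Phi
    push_cast
    apply sum_congr rfl
    intro L hL
    have := (mem_Lines.mp hL).1
    rw [Nat.cast_sub (by omega)]; norm_num
  rw [sum_sub_distrib, sum_const, nsmul_eq_mul, mul_one] at h7
  rw [sum_sub_distrib, sum_const, nsmul_eq_mul]
  have h3' : ((∑ S ∈ Reg A, (adj A S).card : ℕ) : ℤ) ≤ 4 * ∑ L ∈ Lines A, (L.card : ℤ) := by
    have := (Nat.cast_le (α := ℤ)).mpr h3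
    push_cast at this ⊢
    exact this
  have h4' : (2 : ℤ) + 2 * (Phi A : ℤ) ≤ ((Reg A).card : ℤ) := by exact_mod_cast h4
  have h5' : (3 : ℤ) * ((Reg A).card : ℤ) ≤ ((∑ S ∈ Reg A, (adj A S).card : ℕ) : ℤ) := by
    exact_mod_cast h5
  linarith

/-- The trivial inequality, dual form. -/
theorem trivial_dual {A B : Finset V} {g : Finset V → V} (H : Blocked A B g) :
    ∑ L ∈ Lines A, (L.card : ℤ) ≤ (A.card : ℤ) * B.card := by
  have h1 := card_le_card (own_subset H)
  rw [card_own H, card_product] at h1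
  have := (Nat.cast_le (α := ℤ)).mpr h1
  push_cast at this
  linarith

end Pool.Agent.Helper65.Blk
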