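import Mathlib

/-! The lines spanned by a finite planar point set. -/

namespace Pool.Agent.Helper65.Blk

open Classical in
/-- The sets of the form P ∩ ℓ, for ℓ a line through at least two points of P. -/
noncomputable def spanned (P : Finset (ℝ × ℝ)) : Finset (Finset (ℝ × ℝ)) :=
  P.powerset.filter (fun L => ∃ p ∈ P, ∃ q ∈ P, p ≠ q ∧
    ∀ r ∈ P, r ∈ L ↔ r ∈ affineSpan ℝ ({p, q} : Set (ℝ × ℝ)))

theorem mem_spanned {P L : Finset (ℝ × ℝ)} : L ∈ spanned P ↔ L ⊆ P ∧ ∃ p ∈ P, ∃ q ∈ P, p ≠ q ∧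
    ∀ r ∈ P, r ∈ L ↔ r ∈ affineSpan ℝ ({p, q} : Set (ℝ × ℝ)) := by
  classical
  simp [spanned]

end Pool.Agent.Helper65.Blk
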