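import Mathlib
import Pool.Agent.Helper65.Blk.Dart
import Pool.Agent.Helper65.Blk.Defs

/-! Translation to the plane. -/

namespace Pool.Agent.Helper65.Blk

open Finset

def io (p : ℝ × ℝ) : V := (p.1, p.2, 1)

theorem io_inj : Function.Injective io := by
  intro p q h
  have h1 := congrArg (fun w : V => w.1) h
  have h2 := congrArg (fun w : V => w.2.1) h
  exact Prod.ext h1 h2

theorem io_crs {p q : ℝ × ℝ} (h : p ≠ q) : crs (io p) (io q) ≠ 0 := by
  intro h0
  have h1 := congrArg (fun w : V => w.1) h0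
  have h2 := congrArg (fun w : V => w.2.1) h0
  simp only [crs, io, Prod.fst_zero, Prod.snd_zero, mul_one, one_mul] at h1 h2
  exact h (Prod.ext (by linarith) (by linarith))

theorem io_ne (p : ℝ × ℝ) : io p ≠ 0 := by
  intro h
  have := congrArg (fun w : V => w.2.2) h
  exact one_ne_zero this

theorem mem_span_iff {p q r : ℝ × ℝ} (h : p ≠ q) :
    r ∈ affineSpan ℝ ({p, q} : Set (ℝ × ℝ)) ↔ dot (io r) (crs (io p) (io q)) = 0 := by
  rw [mem_affineSpan_pair_iff_exists_lineMap_eq]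
  constructor
  · rintro ⟨t, rfl⟩
    simp only [AffineMap.lineMap_apply, vsub_eq_sub, vadd_eq_add, dot, crs, io, Prod.fst_add,
      Prod.snd_add, Prod.smul_fst, Prod.smul_snd, Prod.fst_sub, Prod.snd_sub, smul_eq_mul]
    ring
  · intro h0
    simp only [dot, crs, io, mul_one, one_mul] at h0
    have hpos : (q.1 - p.1) ^ 2 + (q.2 - p.2) ^ 2 ≠ 0 := by
      intro hz
      apply h
      have h1 : q.1 - p.1 = 0 := by nlinarith [sq_nonneg (q.1 - p.1), sq_nonneg (q.2 - p.2)]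
      have h2 : q.2 - p.2 = 0 := by nlinarith [sq_nonneg (q.1 - p.1), sq_nonneg (q.2 - p.2)]
      exact Prod.ext (by linarith) (by linarith)
    refine ⟨((r.1 - p.1) * (q.1 - p.1) + (r.2 - p.2) * (q.2 - p.2)) /
      ((q.1 - p.1) ^ 2 + (q.2 - p.2) ^ 2), ?_⟩
    refine Prod.ext ?_ ?_
    · simp only [AffineMap.lineMap_apply, vsub_eq_sub, vadd_eq_add, Prod.fst_add,
        Prod.smul_fst, Prod.fst_sub, smul_eq_mul]
      field_simp
      linear_combination (q.2 - p.2) * h0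
    · simp only [AffineMap.lineMap_apply, vsub_eq_sub, vadd_eq_add, Prod.snd_add,
        Prod.smul_snd, Prod.snd_sub, smul_eq_mul]
      field_simp
      linear_combination -(q.1 - p.1) * h0

theorem spans_of {P : Finset (ℝ × ℝ)} (hP : ¬ Collinear ℝ (P : Set (ℝ × ℝ))) :
    Spans (P.image io) := by
  intro x hx
  by_contra hne
  apply hP
  have hx' : ∀ p ∈ P, p.1 * x.1 + p.2 * x.2.1 + x.2.2 = 0 := by
    intro p hp
    have := hx (io p) (mem_image_of_mem io hp)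
    simp only [dot, io, one_mul] at this
    exact this
  rcases P.eq_empty_or_nonempty with rfl | ⟨p0, hp0⟩
  · simpa using collinear_empty ℝ (ℝ × ℝ)
  have hpos : x.1 ^ 2 + x.2.1 ^ 2 ≠ 0 := by
    intro hz
    have h1 : x.1 = 0 := by nlinarith [sq_nonneg x.1, sq_nonneg x.2.1]
    have h2 : x.2.1 = 0 := by nlinarith [sq_nonneg x.1, sq_nonneg x.2.1]
    have h3 := hx' p0 hp0
    rw [h1, h2] at h3
    apply hne
    exact Prod.ext h1 (Prod.ext h2 (by simpa using h3))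
  rw [collinear_iff_of_mem (p₀ := p0) (mem_coe.mpr hp0)]
  refine ⟨(-x.2.1, x.1), fun p hp => ?_⟩
  have h1 := hx' p (mem_coe.mp hp)
  have h0 := hx' p0 hp0
  refine ⟨(-(p.1 - p0.1) * x.2.1 + (p.2 - p0.2) * x.1) / (x.1 ^ 2 + x.2.1 ^ 2), ?_⟩
  refine Prod.ext ?_ ?_
  · simp only [vadd_eq_add, Prod.fst_add, Prod.smul_fst, smul_eq_mul]
    field_simp
    linear_combination x.1 * (h1 - h0)
  · simp only [vadd_eq_add, Prod.snd_add, Prod.smul_snd, smul_eq_mul]
    field_simp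
    linear_combination x.2.1 * (h1 - h0)

theorem red_of (P : Finset (ℝ × ℝ)) : Red (P.image io) := by
  constructor
  · intro a ha
    obtain ⟨p, _, rfl⟩ := mem_image.mp ha
    exact io_ne p
  · intro a ha b hb hab
    obtain ⟨p, _, rfl⟩ := mem_image.mp ha
    obtain ⟨q, _, rfl⟩ := mem_image.mp hb
    exact io_crs (fun h => hab (by rw [h]))

theorem dot_zero_iff_of {a b x y z : V} (hab : crs a b ≠ 0) (hx : x ≠ 0) (hax : dot a x = 0)
    (hbx : dot b x = 0) (hy : y = crs a b) : dot z x = 0 ↔ dot z y = 0 := by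
  obtain ⟨t, ht, hxy⟩ := ann2 hab hx hab hax hbx (dot_crs_self a b) (dot_crs_self' a b)
  rw [hxy, hy, dot_smul]
  simp [ht]

theorem Lines_eq (P : Finset (ℝ × ℝ)) :
    Lines (P.image io) = (spanned P).image (fun L => L.image io) := by
  classical
  ext L'
  rw [mem_image]
  constructor
  · intro h
    obtain ⟨h2, x, hx, hL⟩ := mem_Lines.mp h
    obtain ⟨a, ha, b, hb, hab⟩ := one_lt_card.mp (lt_of_lt_of_le one_lt_two h2)
    rw [hL, mem_Zr] at ha hb
    obtain ⟨p, hp, rfl⟩ := mem_image.mp ha.1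
    obtain ⟨q, hq, rfl⟩ := mem_image.mp hb.1
    have hpq : p ≠ q := fun h => hab (by rw [h])
    refine ⟨P.filter (fun r => dot (io r) x = 0), ?_, ?_⟩
    · rw [mem_spanned]
      refine ⟨filter_subset _ _, p, hp, q, hq, hpq, fun r hr => ?_⟩
      rw [mem_span_iff hpq, mem_filter]
      rw [dot_zero_iff_of (io_crs hpq) hx ha.2 hb.2 rfl]
      exact ⟨fun h => h.2, fun h => ⟨hr, h⟩⟩
    · rw [hL]
      ext c
      rw [mem_image, mem_Zr, mem_image]
      constructor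
      · rintro ⟨r, hr, rfl⟩
        have := mem_filter.mp hr
        exact ⟨⟨r, this.1, rfl⟩, this.2⟩
      · rintro ⟨⟨r, hr, rfl⟩, h⟩
        exact ⟨r, mem_filter.mpr ⟨hr, h⟩, rfl⟩
  · rintro ⟨L, hL, rfl⟩
    obtain ⟨hLP, p, hp, q, hq, hpq, hall⟩ := mem_spanned.mp hL
    have hpL : p ∈ L := (hall p hp).mpr ((mem_span_iff hpq).mpr (dot_crs_self _ _))
    have hqL : q ∈ L := (hall q hq).mpr ((mem_span_iff hpq).mpr (dot_crs_self' _ _))
    rw [mem_Lines]
    refine ⟨?_, crs (io p) (io q), io_crs hpq, ?_⟩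
    · rw [card_image_of_injective _ io_inj]
      exact one_lt_card.mpr ⟨p, hpL, q, hqL, hpq⟩
    · ext c
      rw [mem_image, mem_Zr, mem_image]
      constructor
      · rintro ⟨r, hr, rfl⟩
        exact ⟨⟨r, hLP hr, rfl⟩, (mem_span_iff hpq).mp ((hall r (hLP hr)).mp hr)⟩
      · rintro ⟨⟨r, hr, rfl⟩, h⟩
        exact ⟨r, (hall r hr).mpr ((mem_span_iff hpq).mpr h), rfl⟩

theorem sum_Lines_eq (P : Finset (ℝ × ℝ)) (f : ℕ → ℤ) :
    ∑ L ∈ Lines (P.image io), f L.card = ∑ L ∈ spanned P, f L.card := by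
  rw [Lines_eq, sum_image]
  · apply sum_congr rfl
    intro L _
    rw [card_image_of_injective _ io_inj]
  · intro L _ L' _ h
    exact image_injective io_inj h

/-- Counting pairs of points. -/
theorem sum_pairs {A : Finset V} (hR : Red A) :
    ∑ L ∈ Lines A, ((L.card : ℤ) * (L.card - 1)) = (A.card : ℤ) * (A.card - 1) := by
  classical
  have h1 := card_eq_sum_card_fiberwise (s := A.offDiag) (t := Lines A)
    (f := fun q => Zr A (crs q.1 q.2)) (fun q hq => by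
      have hq := mem_offDiag.mp (mem_coe.mp hq)
      rw [mem_coe, mem_Lines]
      refine ⟨one_lt_card.mpr ⟨q.1, mem_Zr.mpr ⟨hq.1, dot_crs_self _ _⟩, q.2,
        mem_Zr.mpr ⟨hq.2.1, dot_crs_self' _ _⟩, hq.2.2⟩, _,
        hR.2 _ hq.1 _ hq.2.1 hq.2.2, rfl⟩)
  have h2 : ∀ L ∈ Lines A, (A.offDiag.filter (fun q => Zr A (crs q.1 q.2) = L)) = L.offDiag := by
    intro L hL
    obtain ⟨_, x, hx, hLx⟩ := mem_Lines.mp hL
    have hLA := Lines_subset hL
    ext q
    rw [mem_filter, mem_offDiag, mem_offDiag]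
    constructor
    · rintro ⟨⟨h1, h2, h3⟩, h4⟩
      rw [← h4]
      exact ⟨mem_Zr.mpr ⟨h1, dot_crs_self _ _⟩, mem_Zr.mpr ⟨h2, dot_crs_self' _ _⟩, h3⟩
    · rintro ⟨h1, h2, h3⟩
      refine ⟨⟨hLA h1, hLA h2, h3⟩, ?_⟩
      have hn := hR.2 _ (hLA h1) _ (hLA h2) h3
      rw [hLx, mem_Zr] at h1 h2
      rw [hLx]
      exact Zr_eq_of_two hn hn hx (dot_crs_self _ _) (dot_crs_self' _ _) h1.2 h2.2
  rw [sum_congr rfl (fun L hL => by rw [h2 L hL])] at h1
  have h3 : ∀ S : Finset V, (S.offDiag.card : ℤ) = (S.card : ℤ) * (S.card - 1) := by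
    intro S
    rw [offDiag_card, Nat.cast_sub (Nat.le_mul_self _)]
    push_cast
    ring
  have h4 := congrArg (Nat.cast : ℕ → ℤ) h1
  rw [h3] at h4
  push_cast at h4
  rw [h4]
  apply sum_congr rfl
  intro L _
  rw [h3]

theorem collinear_of_spanned {P L : Finset (ℝ × ℝ)} (hL : L ∈ spanned P) :
    Collinear ℝ (L : Set (ℝ × ℝ)) := by
  obtain ⟨hLP, p, hp, q, hq, hpq, hall⟩ := mem_spanned.mp hL
  rw [collinear_iff_exists_forall_eq_smul_vadd]
  refine ⟨p, q - p, fun r hr => ?_⟩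
  have h1 := (hall r (hLP (mem_coe.mp hr))).mp (mem_coe.mp hr)
  rw [mem_affineSpan_pair_iff_exists_lineMap_eq] at h1
  obtain ⟨t, rfl⟩ := h1
  exact ⟨t, by simp [AffineMap.lineMap_apply]⟩

/-- The blocked arrangement of a blocked point set. -/
theorem blocked_of {P B : Finset (ℝ × ℝ)} (hP : ¬ Collinear ℝ (P : Set (ℝ × ℝ)))
    (hPB : Disjoint P B)
    (hB : ∀ p ∈ P, ∀ q ∈ P, p ≠ q → ∃ x ∈ B, x ∈ affineSpan ℝ ({p, q} : Set (ℝ × ℝ))) :
    ∃ g : Finset V → V, Blocked (P.image io) (B.image io) g := by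
  classical
  have hch : ∀ L : Finset V, ∃ b : V, L ∈ Lines (P.image io) →
      b ∈ B.image io ∧ dot b (vx (P.image io) L) = 0 := by
    intro L
    by_cases hL : L ∈ Lines (P.image io)
    · have hv := vx_spec hL
      obtain ⟨a, ha, b, hb, hab⟩ := one_lt_card.mp
        (lt_of_lt_of_le one_lt_two (mem_Lines.mp hL).1)
      rw [hv.2, mem_Zr] at ha hb
      obtain ⟨p, hp, rfl⟩ := mem_image.mp ha.1
      obtain ⟨q, hq, rfl⟩ := mem_image.mp hb.1
      have hpq : p ≠ q := fun h => hab (by rw [h])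
      obtain ⟨x, hx, hxs⟩ := hB p hp q hq hpq
      refine ⟨io x, fun _ => ⟨mem_image_of_mem io hx, ?_⟩⟩
      rw [dot_zero_iff_of (io_crs hpq) hv.1 ha.2 hb.2 rfl]
      exact (mem_span_iff hpq).mp hxs
    · exact ⟨0, fun h => absurd h hL⟩
  choose g hg using hch
  refine ⟨g, red_of P, spans_of hP, ?_, fun L hL => (hg L hL).1, fun L hL => (hg L hL).2⟩
  intro b hb a ha
  obtain ⟨x, hx, rfl⟩ := mem_image.mp hb
  obtain ⟨p, hp, rfl⟩ := mem_image.mp ha
  exact io_crs (fun h => (Finset.disjoint_left.mp hPB) hp (h ▸ hx))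

/-- Summary. -/
theorem summary {P B : Finset (ℝ × ℝ)} (hP : ¬ Collinear ℝ (P : Set (ℝ × ℝ)))
    (hPB : Disjoint P B)
    (hB : ∀ p ∈ P, ∀ q ∈ P, p ≠ q → ∃ x ∈ B, x ∈ affineSpan ℝ ({p, q} : Set (ℝ × ℝ))) :
    (6 + ∑ L ∈ spanned P, (3 * (L.card : ℤ) - 5) ≤ (P.card : ℤ) * B.card) ∧
    (3 + ∑ L ∈ spanned P, ((L.card : ℤ) - 3) ≤ 0) ∧
    (∑ L ∈ spanned P, (L.card : ℤ) ≤ (P.card : ℤ) * B.card) ∧
    (∑ L ∈ spanned P, ((L.card : ℤ) * (L.card - 1)) = (P.card : ℤ) * (P.card - 1)) := by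
  obtain ⟨g, H⟩ := blocked_of hP hPB hB
  have h1 := main_dual H
  have h2 := melchior_dual H.red H.spans
  have h3 := trivial_dual H
  have h4 := sum_pairs H.red
  rw [sum_Lines_eq P (fun n => 3 * (n : ℤ) - 5)] at h1
  rw [sum_Lines_eq P (fun n => (n : ℤ) - 3)] at h2
  rw [sum_Lines_eq P (fun n => (n : ℤ))] at h3
  rw [sum_Lines_eq P (fun n => (n : ℤ) * (n - 1))] at h4
  rw [card_image_of_injective _ io_inj, card_image_of_injective _ io_inj] at h1 h3
  rw [card_image_of_injective _ io_inj] at h4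
  exact ⟨h1, h2, h3, h4⟩

end Pool.Agent.Helper65.Blk
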